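import Pool.Agent.Helper37.RU.Defs

/-!
# The base of a stable submonoid is a code
-/

set_option autoImplicit false

namespace Pool.Agent.Helper37.RU

open Pool.Agent.Helper31.BD

/-- irreducible elements -/
def Irr (M : Set (List ℕ)) : Set (List ℕ) :=
  {w | w ∈ M ∧ w ≠ [] ∧ ∀ u v : List ℕ, w = u ++ v → u ∈ M → v ∈ M → u = [] ∨ v = []}

theorem over_flatten {M : Set (List ℕ)} (h0 : [] ∈ M)
    (hm : ∀ u ∈ M, ∀ v ∈ M, u ++ v ∈ M) {C : Finset (List ℕ)} (hC : ∀ w, w ∈ C ↔ w ∈ Irr M)
    (l : List (List ℕ)) (hl : Over C l) : l.flatten ∈ M := by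
  induction l with
  | nil => simpa using h0
  | cons c l ih =>
    rw [List.flatten_cons]
    exact hm c ((hC c).1 (hl c (by simp))).1 _ (ih (fun x hx => hl x (by simp [hx])))

theorem irr_gen {M : Set (List ℕ)} {C : Finset (List ℕ)} (hC : ∀ w, w ∈ C ↔ w ∈ Irr M) :
    ∀ (k : ℕ) (w : List ℕ), w.length ≤ k → w ∈ M → ∃ l, Over C l ∧ w = l.flatten := by
  intro k
  induction k with
  | zero =>
    intro w hw _
    refine ⟨[], by intro c hc; simp at hc, ?_⟩
    simpa using List.length_eq_zero_iff.1 (Nat.le_zero.1 hw)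
  | succ k ih =>
    intro w hw hM
    by_cases h1 : w = []
    · exact ⟨[], by intro c hc; simp at hc, by simpa using h1⟩
    by_cases h2 : ∀ u v : List ℕ, w = u ++ v → u ∈ M → v ∈ M → u = [] ∨ v = []
    · refine ⟨[w], ?_, by simp⟩
      intro c hc
      rw [List.mem_singleton] at hc
      subst hc
      exact (hC c).2 ⟨hM, h1, h2⟩
    · push Not at h2
      obtain ⟨u, v, hw', hu, hv, hu0, hv0⟩ := h2
      have h3 : w.length = u.length + v.length := by rw [hw', List.length_append]
      have h4 := List.length_pos_iff.2 hu0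
      have h5 := List.length_pos_iff.2 hv0
      obtain ⟨l1, a1, a2⟩ := ih u (by omega) hu
      obtain ⟨l2, b1, b2⟩ := ih v (by omega) hv
      refine ⟨l1 ++ l2, ?_, by rw [List.flatten_append, ← a2, ← b2, hw']⟩
      intro c hc
      rcases List.mem_append.1 hc with h | h
      · exact a1 c h
      · exact b1 c h

theorem irr_ud {M : Set (List ℕ)} (h0 : [] ∈ M)
    (hm : ∀ u ∈ M, ∀ v ∈ M, u ++ v ∈ M)
    (hst : ∀ u w v : List ℕ, u ∈ M → v ∈ M → u ++ w ∈ M → w ++ v ∈ M → w ∈ M)
    {C : Finset (List ℕ)} (hC : ∀ w, w ∈ C ↔ w ∈ Irr M) : UD C := by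
  have key : ∀ (c c' : List ℕ) (l l' : List (List ℕ)), c ∈ C → c' ∈ C → Over C l → Over C l' →
      c ++ l.flatten = c' ++ l'.flatten → ∀ w, c' = c ++ w → c = c' := by
    intro c c' l l' hc hc' hl hl' he w hw
    rw [hw, List.append_assoc] at he
    have he' : l.flatten = w ++ l'.flatten := List.append_cancel_left he
    have hwM : w ∈ M := by
      refine hst c w l'.flatten ((hC c).1 hc).1 (over_flatten h0 hm hC l' hl') ?_ ?_
      · rw [← hw]
        exact ((hC c').1 hc').1
      · rw [← he']
        exact over_flatten h0 hm hC l hl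
    rcases ((hC c').1 hc').2.2 c w hw ((hC c).1 hc).1 hwM with h | h
    · exact absurd h ((hC c).1 hc).2.1
    · rw [hw, h, List.append_nil]
  intro l1
  induction l1 with
  | nil =>
    intro l2 _ h2 he
    cases l2 with
    | nil => rfl
    | cons c l =>
      exfalso
      have h3 := ((hC c).1 (h2 c (by simp))).2.1
      rw [List.flatten_nil, List.flatten_cons] at he
      exact h3 (List.append_eq_nil_iff.1 he.symm).1
  | cons c l ih =>
    intro l2 h1 h2 he
    cases l2 with
    | nil =>
      exfalso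
      have h3 := ((hC c).1 (h1 c (by simp))).2.1
      rw [List.flatten_nil, List.flatten_cons] at he
      exact h3 (List.append_eq_nil_iff.1 he).1
    | cons c' l' =>
      rw [List.flatten_cons, List.flatten_cons] at he
      have hc : c ∈ C := h1 c (by simp)
      have hc' : c' ∈ C := h2 c' (by simp)
      have hl : Over C l := fun x hx => h1 x (by simp [hx])
      have hl' : Over C l' := fun x hx => h2 x (by simp [hx])
      have hcc : c = c' := by
        rcases List.append_eq_append_iff.1 he with ⟨w, hw, _⟩ | ⟨w, hw, _⟩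
        · exact key c c' l l' hc hc' hl hl' he w hw
        · exact (key c' c l' l hc' hc hl' hl he.symm w hw).symm
      subst hcc
      rw [ih l' hl hl' (List.append_cancel_left he)]

end Pool.Agent.Helper37.RU
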