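import Pool.Agent.Helper37.RU.Defs

/-!
# Counting the runs of one letter
-/

set_option autoImplicit false

namespace Pool.Agent.Helper37.RU

/-- reading a word with a counter for the current run of `a`; the runs of `a` which are followed by
another letter have length outside `D` -/
def pr (D : Finset ℕ) (a : ℕ) : ℕ → List ℕ → Prop
  | _, [] => True
  | m, l :: z => if l = a then pr D a (m + 1) z else m ∉ D ∧ pr D a 0 z

/-- the counter at the end -/
def tl (a : ℕ) : ℕ → List ℕ → ℕ
  | m, [] => m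
  | m, l :: z => if l = a then tl a (m + 1) z else tl a 0 z

theorem pr_nil (D : Finset ℕ) (a m : ℕ) : pr D a m [] := trivial

theorem pr_self (D : Finset ℕ) (a m : ℕ) (z : List ℕ) : pr D a m (a :: z) ↔ pr D a (m + 1) z := by
  simp [pr]

theorem pr_ne (D : Finset ℕ) (a m l : ℕ) (z : List ℕ) (h : l ≠ a) :
    pr D a m (l :: z) ↔ m ∉ D ∧ pr D a 0 z := by
  simp [pr, h]

theorem tl_self (a m : ℕ) (z : List ℕ) : tl a m (a :: z) = tl a (m + 1) z := by
  simp [tl]

theorem tl_ne (a m l : ℕ) (z : List ℕ) (h : l ≠ a) : tl a m (l :: z) = tl a 0 z := by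
  simp [tl, h]

theorem pr_append (D : Finset ℕ) (a : ℕ) (u v : List ℕ) :
    ∀ m, pr D a m (u ++ v) ↔ pr D a m u ∧ pr D a (tl a m u) v := by
  induction u with
  | nil => intro m; simp [pr, tl]
  | cons l u ih =>
    intro m
    rw [List.cons_append]
    by_cases h : l = a
    · subst h
      rw [pr_self, pr_self, tl_self, ih]
    · rw [pr_ne _ _ _ _ _ h, pr_ne _ _ _ _ _ h, tl_ne _ _ _ _ h, ih, and_assoc]

theorem tl_append (a : ℕ) (u v : List ℕ) : ∀ m, tl a m (u ++ v) = tl a (tl a m u) v := by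
  induction u with
  | nil => intro m; simp [tl]
  | cons l u ih =>
    intro m
    rw [List.cons_append]
    by_cases h : l = a
    · subst h
      rw [tl_self, tl_self, ih]
    · rw [tl_ne _ _ _ _ h, tl_ne _ _ _ _ h, ih]

theorem pr_rep (D : Finset ℕ) (a : ℕ) (i : ℕ) (z : List ℕ) :
    ∀ m, pr D a m (List.replicate i a ++ z) ↔ pr D a (m + i) z := by
  induction i with
  | zero => intro m; simp
  | succ i ih =>
    intro m
    rw [List.replicate_succ, List.cons_append, pr_self, ih]
    have h : m + 1 + i = m + (i + 1) := by omega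
    rw [h]

theorem tl_rep (a : ℕ) (i : ℕ) (z : List ℕ) :
    ∀ m, tl a m (List.replicate i a ++ z) = tl a (m + i) z := by
  induction i with
  | zero => intro m; simp
  | succ i ih =>
    intro m
    rw [List.replicate_succ, List.cons_append, tl_self, ih]
    have h : m + 1 + i = m + (i + 1) := by omega
    rw [h]

/-- a word without the letter `a` -/
theorem pr_free (D : Finset ℕ) (h0 : 0 ∉ D) (a : ℕ) (z : List ℕ) (hz : a ∉ z) :
    pr D a 0 z ∧ tl a 0 z = 0 := by
  induction z with
  | nil => exact ⟨trivial, rfl⟩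
  | cons l z ih =>
    have h1 : l ≠ a := fun h => hz (by simp [h])
    have h2 : a ∉ z := fun h => hz (by simp [h])
    rw [pr_ne _ _ _ _ _ h1, tl_ne _ _ _ _ h1]
    exact ⟨⟨h0, (ih h2).1⟩, (ih h2).2⟩

/-- the last letter is not `a` -/
theorem tl_last (a m l : ℕ) (z : List ℕ) (h : l ≠ a) : tl a m (z ++ [l]) = 0 := by
  rw [tl_append, tl_ne _ _ _ _ h]
  rfl

theorem tl_zero (a : ℕ) (z : List ℕ) (h : ∀ l y, z = y ++ [l] → l ≠ a) : tl a 0 z = 0 := by
  rcases List.eq_nil_or_concat z with h1 | ⟨y, l, h1⟩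
  · subst h1
    rfl
  · rw [List.concat_eq_append] at h1
    subst h1
    exact tl_last a 0 l y (h l y rfl)

/-- an inner maximal run is recorded -/
theorem pr_inner (D : Finset ℕ) (a m : ℕ) (u v : List ℕ) (y x j : ℕ) (hy : y ≠ a) (hx : x ≠ a)
    (h : pr D a m (u ++ y :: (List.replicate j a ++ x :: v))) : j ∉ D := by
  rw [pr_append, pr_ne _ _ _ _ _ hy, pr_rep, pr_ne _ _ _ _ _ hx, Nat.zero_add] at h
  exact h.2.2.1

/-- converse -/
theorem pr_of_inner (D : Finset ℕ) (a : ℕ) (z : List ℕ) :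
    ∀ m, (∀ (j : ℕ) (x : ℕ) (v : List ℕ), z = List.replicate j a ++ x :: v → x ≠ a → m + j ∉ D) →
      (∀ (u v : List ℕ) (y x j : ℕ), y ≠ a → x ≠ a →
        z = u ++ y :: (List.replicate j a ++ x :: v) → j ∉ D) → pr D a m z := by
  induction z with
  | nil => intro m _ _; trivial
  | cons l z ih =>
    intro m h1 h2
    by_cases h : l = a
    · subst h
      rw [pr_self]
      refine ih (m + 1) ?_ ?_
      · intro j x v hz hx
        have h3 := h1 (j + 1) x v (by rw [hz, List.replicate_succ, List.cons_append]) hx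
        have h4 : m + 1 + j = m + (j + 1) := by omega
        rw [h4]
        exact h3
      · intro u v y x j hy hx hz
        exact h2 (l :: u) v y x j hy hx (by rw [hz, List.cons_append])
    · rw [pr_ne _ _ _ _ _ h]
      refine ⟨?_, ih 0 ?_ ?_⟩
      · have h3 := h1 0 l z (by simp) h
        simpa using h3
      · intro j x v hz hx
        rw [Nat.zero_add]
        exact h2 [] v l x j h hx (by rw [hz, List.nil_append])
      · intro u v y x j hy hx hz
        exact h2 (l :: u) v y x j hy hx (by rw [hz, List.cons_append])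

/-! ### the monoid of one letter -/

/-- all completed runs of `a` have length outside `D`, the last run has length divisible by `k` -/
def Mo (D : Finset ℕ) (k a : ℕ) (w : List ℕ) : Prop := pr D a 0 w ∧ k ∣ tl a 0 w

theorem tl_shift (k a : ℕ) (z : List ℕ) :
    ∀ m m', k ∣ m → (k ∣ tl a (m + m') z ↔ k ∣ tl a m' z) := by
  induction z with
  | nil =>
    intro m m' h
    exact Nat.dvd_add_right h
  | cons l z ih =>
    intro m m' h
    by_cases hl : l = a
    · subst hl
      rw [tl_self, tl_self, Nat.add_assoc]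
      exact ih m (m' + 1) h
    · rw [tl_ne _ _ _ _ hl, tl_ne _ _ _ _ hl]

theorem pr_shift (D : Finset ℕ) (k a : ℕ) (hk : ∀ j ∈ D, j < k) (z : List ℕ) :
    ∀ m m', k ∣ m → pr D a m' z → pr D a (m + m') z := by
  induction z with
  | nil => intro m m' _ _; trivial
  | cons l z ih =>
    intro m m' h hp
    by_cases hl : l = a
    · subst hl
      rw [pr_self] at hp ⊢
      rw [Nat.add_assoc]
      exact ih m (m' + 1) h hp
    · rw [pr_ne _ _ _ _ _ hl] at hp ⊢
      refine ⟨?_, hp.2⟩
      intro hD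
      rcases Nat.eq_zero_or_pos m with h0 | h0
      · rw [h0, Nat.zero_add] at hD
        exact hp.1 hD
      · have h1 := Nat.le_of_dvd h0 h
        have h2 := hk _ hD
        omega

theorem mo_nil (D : Finset ℕ) (k a : ℕ) : Mo D k a [] := ⟨trivial, dvd_zero k⟩

theorem mo_mul (D : Finset ℕ) (k a : ℕ) (hk : ∀ j ∈ D, j < k) (u v : List ℕ) (hu : Mo D k a u)
    (hv : Mo D k a v) : Mo D k a (u ++ v) := by
  refine ⟨?_, ?_⟩
  · rw [pr_append]
    exact ⟨hu.1, pr_shift D k a hk v _ 0 hu.2 hv.1⟩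
  · rw [tl_append]
    exact (tl_shift k a v (tl a 0 u) 0 hu.2).2 hv.2

theorem mo_st (D : Finset ℕ) (k a : ℕ) (u w v : List ℕ) (hu : Mo D k a u)
    (h1 : Mo D k a (u ++ w)) (h2 : Mo D k a (w ++ v)) : Mo D k a w := by
  refine ⟨((pr_append D a w v 0).1 h2.1).1, ?_⟩
  have h3 := h1.2
  rw [tl_append] at h3
  exact (tl_shift k a w (tl a 0 u) 0 hu.2).1 h3

/-- cutting -/
theorem mo_cut (D : Finset ℕ) (k a : ℕ) (u v : List ℕ) (h : Mo D k a (u ++ v))
    (h0 : tl a 0 u = 0) : Mo D k a u ∧ Mo D k a v := by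
  have h1 := (pr_append D a u v 0).1 h.1
  have h2 := h.2
  rw [tl_append, h0] at h2
  rw [h0] at h1
  exact ⟨⟨h1.1, by rw [h0]; exact dvd_zero k⟩, h1.2, h2⟩

end Pool.Agent.Helper37.RU
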