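import Pool.Agent.Helper37.RU.A
import Pool.Agent.Helper37.RU.B

/-!
# The submonoid for two restricted letters
-/

set_option autoImplicit false

namespace Pool.Agent.Helper37.RU

open Pool.Agent.Helper31.BD

/-- both conditions: runs of `p` are read from the left, runs of `q` from the right -/
def MM (n : ℕ) (Dp Dq : Finset ℕ) (p q k : ℕ) : Set (List ℕ) :=
  {w | (∀ a ∈ w, a < n) ∧ Mo Dp k p w ∧ Mo Dq k q w.reverse}

variable {n : ℕ} {Dp Dq : Finset ℕ} {p q k : ℕ}

theorem mm_rev (w : List ℕ) : w ∈ MM n Dp Dq p q k ↔ w.reverse ∈ MM n Dq Dp q p k := by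
  unfold MM
  simp only [Set.mem_setOf_eq, List.mem_reverse, List.reverse_reverse]
  tauto

theorem mm_nil : [] ∈ MM n Dp Dq p q k :=
  ⟨by simp, mo_nil _ _ _, by simpa using mo_nil _ _ _⟩

theorem mm_mul (hp : ∀ j ∈ Dp, j < k) (hq : ∀ j ∈ Dq, j < k) :
    ∀ u ∈ MM n Dp Dq p q k, ∀ v ∈ MM n Dp Dq p q k, u ++ v ∈ MM n Dp Dq p q k := by
  rintro u ⟨u1, u2, u3⟩ v ⟨v1, v2, v3⟩
  refine ⟨?_, mo_mul _ _ _ hp u v u2 v2, ?_⟩
  · intro a ha
    rcases List.mem_append.1 ha with h | h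
    · exact u1 a h
    · exact v1 a h
  · rw [List.reverse_append]
    exact mo_mul _ _ _ hq _ _ v3 u3

theorem mm_st : ∀ u w v : List ℕ, u ∈ MM n Dp Dq p q k → v ∈ MM n Dp Dq p q k →
    u ++ w ∈ MM n Dp Dq p q k → w ++ v ∈ MM n Dp Dq p q k → w ∈ MM n Dp Dq p q k := by
  rintro u w v ⟨u1, u2, u3⟩ ⟨v1, v2, v3⟩ ⟨a1, a2, a3⟩ ⟨b1, b2, b3⟩
  refine ⟨fun a ha => b1 a (by simp [ha]), mo_st _ _ _ u w v u2 a2 b2, ?_⟩
  rw [List.reverse_append] at a3 b3
  exact mo_st _ _ _ v.reverse w.reverse u.reverse v3 b3 a3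

theorem irr_rev (w : List ℕ) (h : w ∈ Irr (MM n Dp Dq p q k)) :
    w.reverse ∈ Irr (MM n Dq Dp q p k) := by
  obtain ⟨h1, h2, h3⟩ := h
  refine ⟨(mm_rev w).1 h1, by simpa using h2, ?_⟩
  intro u v he hu hv
  have he' : w = v.reverse ++ u.reverse := by
    rw [← List.reverse_append, ← he, List.reverse_reverse]
  rcases h3 _ _ he' ((mm_rev v).1 hv) ((mm_rev u).1 hu) with h | h
  · right
    simpa using h
  · left
    simpa using h

theorem pr_other (D : Finset ℕ) (h0 : 0 ∉ D) (a b m i : ℕ) (hab : b ≠ a) (hi : 0 < i) :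
    (pr D a m (List.replicate i b) ↔ m ∉ D) ∧ tl a m (List.replicate i b) = 0 := by
  obtain ⟨i, rfl⟩ : ∃ i', i = i' + 1 := ⟨i - 1, by omega⟩
  have hf := pr_free D h0 a (List.replicate i b) (by
    intro h
    exact hab (List.eq_of_mem_replicate h).symm)
  rw [List.replicate_succ, pr_ne _ _ _ _ _ hab, tl_ne _ _ _ _ hab]
  exact ⟨⟨fun h => h.1, fun h => ⟨h, hf.1⟩⟩, hf.2⟩

theorem pr_unshift (D : Finset ℕ) (k a : ℕ) (hk : ∀ j ∈ D, j < k) (z : List ℕ) :
    ∀ m, k ≤ m → pr D a (k + m) z → pr D a m z := by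
  induction z with
  | nil => intro m _ _; trivial
  | cons l z ih =>
    intro m h hp
    by_cases hl : l = a
    · subst hl
      rw [pr_self] at hp ⊢
      rw [Nat.add_assoc] at hp
      exact ih (m + 1) (by omega) hp
    · rw [pr_ne _ _ _ _ _ hl] at hp ⊢
      refine ⟨?_, hp.2⟩
      intro hD
      have h2 := hk _ hD
      omega

theorem claimA (hpq : p ≠ q) (hk : 0 < k) (h0p : 0 ∉ Dp) (h0q : 0 ∉ Dq) (hp : ∀ j ∈ Dp, j < k)
    (w : List ℕ) (hw : w ∈ Irr (MM n Dp Dq p q k)) (i : ℕ) (v : List ℕ)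
    (he : w = List.replicate i p ++ v) : i < 2 * k := by
  by_contra hi
  push Not at hi
  obtain ⟨i', rfl⟩ : ∃ i', i = k + i' := ⟨i - k, by omega⟩
  have hi' : k ≤ i' := by omega
  obtain ⟨⟨w1, w2, w3⟩, _, h3⟩ := hw
  have hpn : p < n := by
    refine w1 p ?_
    rw [he]
    refine List.mem_append_left _ (List.mem_replicate.2 ⟨by omega, rfl⟩)
  have hsplit : w = List.replicate k p ++ (List.replicate i' p ++ v) := by
    rw [he, List.replicate_add, List.append_assoc]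
  have hu : List.replicate k p ∈ MM n Dp Dq p q k := by
    refine ⟨?_, ?_, ?_⟩
    · intro a ha
      rw [List.eq_of_mem_replicate ha]
      exact hpn
    · have h4 := pr_rep Dp p k [] 0
      have h5 := tl_rep p k [] 0
      rw [List.append_nil, Nat.zero_add] at h4 h5
      exact ⟨h4.2 trivial, by rw [h5]; exact dvd_refl k⟩
    · rw [List.reverse_replicate]
      have h4 := pr_other Dq h0q q p 0 k hpq hk
      exact ⟨h4.1.2 h0q, by rw [h4.2]; exact dvd_zero k⟩
  have hv : List.replicate i' p ++ v ∈ MM n Dp Dq p q k := by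
    refine ⟨?_, ⟨?_, ?_⟩, ?_⟩
    · intro a ha
      refine w1 a ?_
      rw [hsplit]
      exact List.mem_append_right _ ha
    · have h4 := w2.1
      rw [he, pr_rep] at h4
      rw [pr_rep, Nat.zero_add]
      rw [Nat.zero_add] at h4
      exact pr_unshift Dp k p hp v i' hi' h4
    · have h4 := w2.2
      rw [he, tl_rep, Nat.zero_add] at h4
      rw [tl_rep, Nat.zero_add]
      exact (tl_shift k p v k i' (dvd_refl k)).1 h4
    · have h4 := w3
      rw [he, List.reverse_append, List.reverse_replicate] at h4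
      rw [List.reverse_append, List.reverse_replicate]
      have h5 := pr_other Dq h0q q p (tl q 0 v.reverse) (k + i') hpq (by omega)
      have h6 := pr_other Dq h0q q p (tl q 0 v.reverse) i' hpq (by omega)
      refine ⟨?_, ?_⟩
      · rw [pr_append]
        have h7 := (pr_append Dq q v.reverse (List.replicate (k + i') p) 0).1 h4.1
        exact ⟨h7.1, h6.1.2 (h5.1.1 h7.2)⟩
      · rw [tl_append, h6.2]
        exact dvd_zero k
  rcases h3 _ _ hsplit hu hv with h | h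
  · have := congrArg List.length h
    simp at this
    omega
  · have := congrArg List.length h
    simp at this
    omega

theorem claimB (hpq : p ≠ q) (hk : 0 < k) (h0p : 0 ∉ Dp) (h0q : 0 ∉ Dq) (hq : ∀ j ∈ Dq, j < k)
    (w : List ℕ) (hw : w ∈ Irr (MM n Dp Dq p q k)) (j : ℕ) (v : List ℕ)
    (he : w = v ++ List.replicate j q) : j < 2 * k := by
  refine claimA hpq.symm hk h0q h0p hq w.reverse (irr_rev w hw) j v.reverse ?_
  rw [he, List.reverse_append, List.reverse_replicate]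

theorem claimC (w u v : List ℕ) (hw : w ∈ Irr (MM n Dp Dq p q k)) (he : w = u ++ v)
    (hu : u ≠ []) (hv : v ≠ []) (h1 : tl p 0 u = 0) (h2 : tl q 0 v.reverse = 0) : False := by
  obtain ⟨⟨w1, w2, w3⟩, _, h3⟩ := hw
  rw [he] at w2 w3
  rw [List.reverse_append] at w3
  obtain ⟨a1, a2⟩ := mo_cut _ _ _ _ _ w2 h1
  obtain ⟨b1, b2⟩ := mo_cut _ _ _ _ _ w3 h2
  rcases h3 u v he ⟨fun a ha => w1 a (by rw [he]; exact List.mem_append_left _ ha), a1, b2⟩
    ⟨fun a ha => w1 a (by rw [he]; exact List.mem_append_right _ ha), a2, b1⟩ with h | h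
  · exact hu h
  · exact hv h

theorem exists_rep (a : ℕ) (z : List ℕ) : ∃ (m : ℕ) (z' : List ℕ), z = List.replicate m a ++ z' ∧
    (z' = [] ∨ ∃ l y, z' = l :: y ∧ l ≠ a) := by
  induction z with
  | nil => exact ⟨0, [], by simp, Or.inl rfl⟩
  | cons l z ih =>
    by_cases h : l = a
    · obtain ⟨m, z', h1, h2⟩ := ih
      refine ⟨m + 1, z', ?_, h2⟩
      rw [List.replicate_succ, List.cons_append, ← h1, h]
    · exact ⟨0, l :: z, by simp, Or.inr ⟨l, z, rfl, h⟩⟩

theorem irr_len (hpq : p ≠ q) (hk : 0 < k) (h0p : 0 ∉ Dp) (h0q : 0 ∉ Dq) (hp : ∀ j ∈ Dp, j < k)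
    (hq : ∀ j ∈ Dq, j < k) (w : List ℕ) (hw : w ∈ Irr (MM n Dp Dq p q k)) :
    w.length ≤ 4 * k := by
  obtain ⟨i, z, h1, h2⟩ := exists_rep p w
  have hi := claimA hpq hk h0p h0q hp w hw i z h1
  rcases h2 with h2 | ⟨l, y, h2, hl⟩
  · rw [h1, h2]
    simp
    omega
  · obtain ⟨j, z2, h3, h4⟩ := exists_rep q y
    rcases h4 with h4 | ⟨x, y2, h4, hx⟩
    · have hj := claimB hpq hk h0p h0q hq w hw j (List.replicate i p ++ [l]) (by
        rw [h1, h2, h3, h4]
        simp)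
      rw [h1, h2, h3, h4]
      simp
      omega
    · exfalso
      refine claimC w (List.replicate i p ++ l :: List.replicate j q) (x :: y2) hw ?_ (by simp)
        (by simp) ?_ ?_
      · rw [h1, h2, h3, h4]
        simp
      · rw [tl_rep, tl_ne _ _ _ _ hl]
        exact (pr_free ∅ (by simp) p _ (fun h => hpq (List.eq_of_mem_replicate h))).2
      · rw [List.reverse_cons]
        exact tl_last _ _ _ _ hx

theorem finite_words (n N : ℕ) : {w : List ℕ | (∀ a ∈ w, a < n) ∧ w.length ≤ N}.Finite := by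
  have h : {w : List ℕ | (∀ a ∈ w, a < n) ∧ w.length ≤ N} ⊆
      (List.map (Fin.val : Fin n → ℕ)) '' {l : List (Fin n) | l.length ≤ N} := by
    rintro w ⟨h1, h2⟩
    refine ⟨w.attach.map (fun a => ⟨a.1, h1 a.1 a.2⟩), by simpa using h2, ?_⟩
    rw [List.map_map]
    have : (Fin.val ∘ fun a : {x // x ∈ w} => (⟨a.1, h1 a.1 a.2⟩ : Fin n)) = Subtype.val := rfl
    rw [this, List.attach_map_subtype_val]
  exact ((List.finite_length_le (Fin n) N).image _).subset h

/-- the base is finite and a code, and it generates -/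
theorem exists_code (hpq : p ≠ q) (hk : 0 < k) (h0p : 0 ∉ Dp) (h0q : 0 ∉ Dq)
    (hp : ∀ j ∈ Dp, j < k) (hq : ∀ j ∈ Dq, j < k) :
    ∃ C : Finset (List ℕ), UD C ∧ ∀ w, w ∈ Fac C ↔ ∃ u v, u ++ w ++ v ∈ MM n Dp Dq p q k := by
  classical
  have hfin : (Irr (MM n Dp Dq p q k)).Finite := by
    refine (finite_words n (4 * k)).subset ?_
    intro w hw
    exact ⟨hw.1.1, irr_len hpq hk h0p h0q hp hq w hw⟩
  have hC : ∀ w, w ∈ hfin.toFinset ↔ w ∈ Irr (MM n Dp Dq p q k) := fun w => hfin.mem_toFinset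
  refine ⟨hfin.toFinset, irr_ud mm_nil (mm_mul hp hq) mm_st hC, ?_⟩
  intro w
  constructor
  · rintro ⟨u, v, l, hl, he⟩
    refine ⟨u, v, ?_⟩
    rw [he]
    exact over_flatten mm_nil (mm_mul hp hq) hC l hl
  · rintro ⟨u, v, h⟩
    obtain ⟨l, hl, he⟩ := irr_gen hC _ _ le_rfl h
    exact ⟨u, v, l, hl, he⟩

end Pool.Agent.Helper37.RU
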