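import Pool.Agent.Helper37.RU.C

/-!
# At most two restricted letters
-/

set_option autoImplicit false

namespace Pool.Agent.Helper37.RU

open Pool.Agent.Helper31.BD

theorem ext_mo (D : Finset ℕ) (k p q e : ℕ) (w : List ℕ) (hpq : p ≠ q) (h0 : 0 ∉ D) (hk : 0 < k)
    (hD : ∀ j ∈ D, j < k)
    (hw : ∀ (u v : List ℕ) (y x j : ℕ), y ≠ p → x ≠ p →
      w = u ++ y :: (List.replicate j p ++ x :: v) → j ∉ D) :
    Mo D k p (List.replicate e q ++ (List.replicate (k * tl p 0 w.reverse) p ++ (w ++
      (List.replicate (k * tl q 0 w) q ++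
        List.replicate ((k - 1) * tl p (k * tl p 0 w.reverse) w) p)))) := by
  have hq := pr_free D h0 p (List.replicate e q) (fun h => hpq (List.eq_of_mem_replicate h))
  have hpr : pr D p (k * tl p 0 w.reverse) w := by
    refine pr_of_inner D p w _ ?_ hw
    intro j x v he hx
    have h1 : tl p 0 w.reverse = j := by
      rw [he, List.reverse_append, List.reverse_cons, List.reverse_replicate, tl_append, tl_last _ _ _ _ hx]
      have h5 := tl_rep p j [] 0
      rw [List.append_nil, Nat.zero_add] at h5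
      exact h5
    rw [h1]
    rcases Nat.eq_zero_or_pos j with h2 | h2
    · rw [h2]
      simpa using h0
    · intro h3
      have h4 := hD _ h3
      have h5 : k * 1 ≤ k * j := Nat.mul_le_mul_left k h2
      omega
  have hT : tl q 0 w = 0 ∨ tl p (k * tl p 0 w.reverse) w = 0 := by
    rcases List.eq_nil_or_concat w with h1 | ⟨y, l, h1⟩
    · left
      rw [h1]
      rfl
    · rw [List.concat_eq_append] at h1
      by_cases h2 : l = q
      · right
        rw [h1]
        exact tl_last _ _ _ _ (by rw [h2]; exact hpq.symm)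
      · left
        rw [h1]
        exact tl_last _ _ _ _ h2
  unfold Mo
  rw [pr_append, tl_append, hq.2, pr_rep, tl_rep, Nat.zero_add, pr_append, tl_append]
  generalize k * tl p 0 w.reverse = m at *
  generalize tl p m w = T at *
  have hfin : pr D p T (List.replicate (k * tl q 0 w) q ++ List.replicate ((k - 1) * T) p) ∧
      k ∣ tl p T (List.replicate (k * tl q 0 w) q ++ List.replicate ((k - 1) * T) p) := by
    rcases hT with h | h
    · rw [h, Nat.mul_zero, List.replicate_zero, List.nil_append]
      have h4 := pr_rep D p ((k - 1) * T) [] T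
      have h5 := tl_rep p ((k - 1) * T) [] T
      rw [List.append_nil] at h4 h5
      refine ⟨h4.2 trivial, ?_⟩
      rw [h5]
      have h6 : T + (k - 1) * T = k * T := by
        obtain ⟨k', rfl⟩ : ∃ k', k = k' + 1 := ⟨k - 1, by omega⟩
        rw [Nat.add_sub_cancel]
        ring
      change k ∣ T + (k - 1) * T
      rw [h6]
      exact dvd_mul_right k T
    · rw [h, Nat.mul_zero, List.replicate_zero, List.append_nil]
      have h4 := pr_free D h0 p (List.replicate (k * tl q 0 w) q)
        (fun h => hpq (List.eq_of_mem_replicate h))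
      refine ⟨h4.1, ?_⟩
      rw [h4.2]
      exact dvd_zero k
  exact ⟨⟨hq.1, hpr, hfin.1⟩, hfin.2⟩

theorem fac_eq (n : ℕ) (D : ℕ → Finset ℕ) (p q k : ℕ) (hpq : p ≠ q) (hk : 0 < k)
    (h0 : ∀ a, 0 ∉ D a) (hp : ∀ j ∈ D p, j < k) (hq : ∀ j ∈ D q, j < k)
    (hres : ∀ a < n, a ≠ p → a ≠ q → D a = ∅) (w : List ℕ) :
    (∃ u v, u ++ w ++ v ∈ MM n (D p) (D q) p q k) ↔ w ∈ RunLang n D := by
  constructor
  · rintro ⟨u, v, h1, h2, h3⟩
    have hl : ∀ a ∈ w, a < n := fun a ha => h1 a (by simp [ha])
    refine ⟨hl, ?_⟩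
    rintro a j ⟨hj, u', v', y, x, hy, hx, he⟩
    by_cases hap : a = p
    · subst hap
      refine pr_inner (D a) a 0 (u ++ u') (v' ++ v) y x j hy hx ?_
      have h4 := h2.1
      rw [he] at h4
      simpa using h4
    by_cases haq : a = q
    · subst haq
      refine pr_inner (D a) a 0 (v.reverse ++ v'.reverse) (u'.reverse ++ u.reverse) x y j hx hy ?_
      have h4 := h3.1
      rw [he] at h4
      simpa using h4
    have han : a < n := by
      refine hl a ?_
      rw [he]
      refine List.mem_append_right _ (List.mem_cons_of_mem _ (List.mem_append_left _ ?_))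
      exact List.mem_replicate.2 ⟨by omega, rfl⟩
    rw [hres a han hap haq]
    simp
  · rintro ⟨hl, hD⟩
    have hDp : ∀ (c : ℕ) (u v : List ℕ) (y x j : ℕ), y ≠ c → x ≠ c →
        w = u ++ y :: (List.replicate j c ++ x :: v) → j ∉ D c := by
      intro c u v y x j hy hx he
      rcases Nat.eq_zero_or_pos j with h | h
      · rw [h]
        exact h0 c
      · exact hD c j ⟨h, u, v, y, x, hy, hx, he⟩
    have hDr : ∀ (c : ℕ) (u v : List ℕ) (y x j : ℕ), y ≠ c → x ≠ c →
        w.reverse = u ++ y :: (List.replicate j c ++ x :: v) → j ∉ D c := by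
      intro c u v y x j hy hx he
      refine hDp c v.reverse u.reverse x y j hx hy ?_
      rw [← List.reverse_reverse w, he]
      simp
    have e1 := ext_mo (D p) k p q ((k - 1) * tl q (k * tl q 0 w) w.reverse) w hpq (h0 p) hk hp
      (hDp p)
    have e2 := ext_mo (D q) k q p ((k - 1) * tl p (k * tl p 0 w.reverse) w) w.reverse hpq.symm
      (h0 q) hk hq (hDr q)
    rw [List.reverse_reverse] at e2
    have hzp : p ∉ w → tl p 0 w.reverse = 0 ∧ tl p (k * tl p 0 w.reverse) w = 0 := by
      intro h
      have h1 := (pr_free ∅ (by simp) p w.reverse (by simpa using h)).2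
      have h2 := (pr_free ∅ (by simp) p w h).2
      rw [h1, Nat.mul_zero]
      exact ⟨rfl, h2⟩
    have hzq : q ∉ w → tl q 0 w = 0 ∧ tl q (k * tl q 0 w) w.reverse = 0 := by
      intro h
      have h1 := (pr_free ∅ (by simp) q w.reverse (by simpa using h)).2
      have h2 := (pr_free ∅ (by simp) q w h).2
      rw [h2, Nat.mul_zero]
      exact ⟨rfl, h1⟩
    refine ⟨List.replicate ((k - 1) * tl q (k * tl q 0 w) w.reverse) q ++
      List.replicate (k * tl p 0 w.reverse) p,
      List.replicate (k * tl q 0 w) q ++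
        List.replicate ((k - 1) * tl p (k * tl p 0 w.reverse) w) p, ?_, ?_, ?_⟩
    · intro a ha
      simp only [List.mem_append, List.mem_replicate] at ha
      rcases ha with ((⟨h1, h2⟩ | ⟨h1, h2⟩) | h) | (⟨h1, h2⟩ | ⟨h1, h2⟩)
      · subst h2
        by_contra hc
        have h3 : a ∉ w := fun h => hc (hl a h)
        exact h1 (by rw [(hzq h3).2, Nat.mul_zero])
      · subst h2
        by_contra hc
        have h3 : a ∉ w := fun h => hc (hl a h)
        exact h1 (by rw [(hzp h3).1, Nat.mul_zero])
      · exact hl a h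
      · subst h2
        by_contra hc
        have h3 : a ∉ w := fun h => hc (hl a h)
        exact h1 (by rw [(hzq h3).1, Nat.mul_zero])
      · subst h2
        by_contra hc
        have h3 : a ∉ w := fun h => hc (hl a h)
        exact h1 (by rw [(hzp h3).2, Nat.mul_zero])
    · simpa using e1
    · simpa using e2

theorem runLang_erase (n : ℕ) (D : ℕ → Finset ℕ) :
    RunLang n (fun a => (D a).erase 0) = RunLang n D := by
  ext w
  constructor
  · rintro ⟨h1, h2⟩
    refine ⟨h1, fun a j hj hD => h2 a j hj ?_⟩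
    exact Finset.mem_erase.2 ⟨by have := hj.1; omega, hD⟩
  · rintro ⟨h1, h2⟩
    exact ⟨h1, fun a j hj hD => h2 a j hj (Finset.mem_erase.1 hD).2⟩

theorem sufficient (n : ℕ) (D : ℕ → Finset ℕ)
    (h : ((Finset.range n).filter (fun a => ∃ j ∈ D a, 0 < j)).card ≤ 2) :
    ∃ C : Finset (List ℕ), UD C ∧ RunLang n D = Fac C := by
  obtain ⟨p, q, hpq, hs⟩ : ∃ p q : ℕ, p ≠ q ∧
      (Finset.range n).filter (fun a => ∃ j ∈ D a, 0 < j) ⊆ {p, q} := by
    generalize (Finset.range n).filter (fun a => ∃ j ∈ D a, 0 < j) = s at h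
    have h3 : s.card = 0 ∨ s.card = 1 ∨ s.card = 2 := by omega
    rcases h3 with h3 | h3 | h3
    · rw [Finset.card_eq_zero] at h3
      exact ⟨0, 1, by omega, by rw [h3]; exact Finset.empty_subset _⟩
    · obtain ⟨a, ha⟩ := Finset.card_eq_one.1 h3
      refine ⟨a, a + 1, by omega, ?_⟩
      rw [ha]
      intro x hx
      simp at hx ⊢
      exact Or.inl hx
    · obtain ⟨a, b, e, hab⟩ := Finset.card_eq_two.1 h3
      exact ⟨a, b, e, by rw [hab]⟩
  let D' : ℕ → Finset ℕ := fun a => (D a).erase 0
  let k := (D' p).sup id + (D' q).sup id + 1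
  have hk : 0 < k := Nat.succ_pos _
  have h0 : ∀ a, 0 ∉ D' a := fun a => Finset.notMem_erase 0 _
  have hp : ∀ j ∈ D' p, j < k := by
    intro j hj
    have := Finset.le_sup (f := id) hj
    simp only [id] at this
    show j < (D' p).sup id + (D' q).sup id + 1
    omega
  have hq : ∀ j ∈ D' q, j < k := by
    intro j hj
    have := Finset.le_sup (f := id) hj
    simp only [id] at this
    show j < (D' p).sup id + (D' q).sup id + 1
    omega
  have hres : ∀ a < n, a ≠ p → a ≠ q → D' a = ∅ := by
    intro a ha hap haq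
    by_contra hne
    obtain ⟨j, hj⟩ := Finset.nonempty_iff_ne_empty.2 hne
    have hj' := Finset.mem_erase.1 hj
    have : a ∈ (Finset.range n).filter (fun a => ∃ j ∈ D a, 0 < j) := by
      rw [Finset.mem_filter, Finset.mem_range]
      exact ⟨ha, j, hj'.2, Nat.pos_of_ne_zero hj'.1⟩
    have h3 := hs this
    simp only [Finset.mem_insert, Finset.mem_singleton] at h3
    rcases h3 with h3 | h3
    · exact hap h3
    · exact haq h3
  obtain ⟨C, hC, hF⟩ := exists_code (n := n) hpq hk (h0 p) (h0 q) hp hq
  refine ⟨C, hC, ?_⟩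
  rw [← runLang_erase]
  ext w
  rw [hF w]
  exact (fac_eq n D' p q k hpq hk h0 hp hq hres w).symm

end Pool.Agent.Helper37.RU
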