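import Pool.Agent.Helper31.BD.Defs

/-!
# MP_93aa28_lc: languages defined by forbidden run lengths (definitions)
-/

set_option autoImplicit false

namespace Pool.Agent.Helper37.RU

/-- `a^j` is an inner maximal run of the word `w`: it occurs in `w` between two letters different
from `a` -/
def InnerRun (w : List ℕ) (a j : ℕ) : Prop :=
  0 < j ∧ ∃ (u v : List ℕ) (y x : ℕ), y ≠ a ∧ x ≠ a ∧
    w = u ++ y :: (List.replicate j a ++ x :: v)

/-- the words over the letters `0, .., n - 1` in which no inner maximal run of a letter `a` has its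
length in the finite set `D a` -/
def RunLang (n : ℕ) (D : ℕ → Finset ℕ) : Set (List ℕ) :=
  {w | (∀ a ∈ w, a < n) ∧ ∀ a j : ℕ, InnerRun w a j → j ∉ D a}

end Pool.Agent.Helper37.RU
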