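import Pool.Agent.Helper37.RU.Defs

/-!
# Weighted counting of words
-/

set_option autoImplicit false

namespace Pool.Agent.Helper37.RU

open Finset

variable (S : Finset ℕ) (wt : ℕ → ℂ)

/-- the sum of `f z` times the weight of `z` over the words `z` of length `k` over `S` -/
noncomputable def cnt : ℕ → (List ℕ → ℂ) → ℂ
  | 0, f => f []
  | k + 1, f => ∑ l ∈ S, wt l * cnt k (fun z => f (l :: z))

/-- generating function -/
noncomputable def gf (f : List ℕ → ℂ) : PowerSeries ℂ := PowerSeries.mk (fun k => cnt S wt k f)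

/-- the monomial of a word -/
noncomputable def mon (t : List ℕ) : Polynomial ℂ :=
  Polynomial.C ((t.map wt).prod) * Polynomial.X ^ t.length

open Classical in
/-- the function `g` behind the word `t` -/
noncomputable def pf (t : List ℕ) (g : List ℕ → ℂ) (z : List ℕ) : ℂ :=
  if t <+: z then g (z.drop t.length) else 0

theorem cnt_congr (k : ℕ) : ∀ (f g : List ℕ → ℂ),
    (∀ z : List ℕ, z.length = k → (∀ a ∈ z, a ∈ S) → f z = g z) → cnt S wt k f = cnt S wt k g := by
  induction k with
  | zero => intro f g h; exact h [] rfl (by simp)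
  | succ k ih =>
    intro f g h
    unfold cnt
    refine Finset.sum_congr rfl fun l hl => ?_
    rw [ih (fun z => f (l :: z)) (fun z => g (l :: z)) ?_]
    intro z hz hS
    refine h (l :: z) (by simp [hz]) ?_
    intro a ha
    rcases List.mem_cons.1 ha with h1 | h1
    · rw [h1]; exact hl
    · exact hS a h1

theorem cnt_add (k : ℕ) : ∀ (f g : List ℕ → ℂ),
    cnt S wt k (fun z => f z + g z) = cnt S wt k f + cnt S wt k g := by
  induction k with
  | zero => intro f g; rfl
  | succ k ih =>
    intro f g
    unfold cnt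
    rw [← Finset.sum_add_distrib]
    refine Finset.sum_congr rfl fun l _ => ?_
    rw [ih, mul_add]

theorem cnt_zero (k : ℕ) : cnt S wt k (fun _ => 0) = 0 := by
  induction k with
  | zero => rfl
  | succ k ih =>
    unfold cnt
    refine Finset.sum_eq_zero fun l _ => ?_
    rw [ih, mul_zero]

theorem gf_congr (f g : List ℕ → ℂ) (h : ∀ z : List ℕ, (∀ a ∈ z, a ∈ S) → f z = g z) :
    gf S wt f = gf S wt g := by
  unfold gf
  congr 1
  funext k
  exact cnt_congr S wt k f g (fun z _ hz => h z hz)

theorem gf_add (f g : List ℕ → ℂ) :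
    gf S wt (fun z => f z + g z) = gf S wt f + gf S wt g := by
  ext k
  rw [map_add]
  unfold gf
  rw [PowerSeries.coeff_mk, PowerSeries.coeff_mk, PowerSeries.coeff_mk]
  exact cnt_add S wt k f g

theorem gf_zero : gf S wt (fun _ => 0) = 0 := by
  ext k
  unfold gf
  rw [PowerSeries.coeff_mk, cnt_zero, map_zero]

theorem gf_step (f : List ℕ → ℂ) :
    gf S wt f = PowerSeries.C (f []) + PowerSeries.X *
      ∑ l ∈ S, PowerSeries.C (wt l) * gf S wt (fun z => f (l :: z)) := by
  ext k
  rcases k with _ | k
  · unfold gf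
    simp [cnt]
  · rw [map_add, PowerSeries.coeff_succ_X_mul, map_sum]
    unfold gf
    rw [PowerSeries.coeff_mk]
    simp [cnt, PowerSeries.coeff_C]

theorem pf_nil (g : List ℕ → ℂ) (z : List ℕ) : pf [] g z = g z := by
  simp [pf]

theorem pf_cons_nil (l : ℕ) (t : List ℕ) (g : List ℕ → ℂ) : pf (l :: t) g [] = 0 := by
  simp [pf]

theorem pf_cons_self (l : ℕ) (t : List ℕ) (g : List ℕ → ℂ) (z : List ℕ) :
    pf (l :: t) g (l :: z) = pf t g z := by
  simp [pf]

theorem pf_cons_ne (l a : ℕ) (t : List ℕ) (g : List ℕ → ℂ) (z : List ℕ) (h : l ≠ a) :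
    pf (l :: t) g (a :: z) = 0 := by
  simp [pf, h]

theorem gf_pf (hwt : ∀ l, l ∉ S → wt l = 0) (t : List ℕ) (g : List ℕ → ℂ) :
    gf S wt (pf t g) = (mon wt t : PowerSeries ℂ) * gf S wt g := by
  induction t with
  | nil =>
    have h : pf [] g = g := by funext z; exact pf_nil g z
    rw [h]
    simp [mon]
  | cons l t ih =>
    rw [gf_step, pf_cons_nil, map_zero, zero_add]
    have h1 : ∑ a ∈ S, PowerSeries.C (wt a) * gf S wt (fun z => pf (l :: t) g (a :: z)) =
        PowerSeries.C (wt l) * gf S wt (pf t g) := by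
      by_cases hl : l ∈ S
      · rw [Finset.sum_eq_single l]
        · have h2 : (fun z => pf (l :: t) g (l :: z)) = pf t g := by
            funext z; exact pf_cons_self l t g z
          rw [h2]
        · intro a _ ha
          have h2 : (fun z => pf (l :: t) g (a :: z)) = fun _ => 0 := by
            funext z; exact pf_cons_ne l a t g z (Ne.symm ha)
          rw [h2, gf_zero, mul_zero]
        · intro h; exact absurd hl h
      · rw [hwt l hl, map_zero, zero_mul]
        refine Finset.sum_eq_zero fun a ha => ?_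
        have hne : l ≠ a := fun h => hl (h ▸ ha)
        have h2 : (fun z => pf (l :: t) g (a :: z)) = fun _ => 0 := by
          funext z; exact pf_cons_ne l a t g z hne
        rw [h2, gf_zero, mul_zero]
    rw [h1, ih]
    unfold mon
    simp only [List.map_cons, List.prod_cons, List.length_cons, Polynomial.coe_mul,
      Polynomial.coe_C, Polynomial.coe_pow, Polynomial.coe_X, map_mul]
    ring

theorem gf_sum {ι : Type} (s : Finset ι) (f : ι → List ℕ → ℂ) :
    gf S wt (fun z => ∑ i ∈ s, f i z) = ∑ i ∈ s, gf S wt (f i) := by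
  classical
  induction s using Finset.induction_on with
  | empty => simp [gf_zero]
  | insert i s hi ih =>
    rw [Finset.sum_insert hi, ← ih, ← gf_add]
    congr 1
    funext z
    rw [Finset.sum_insert hi]

theorem gf_lsum (T : List (List ℕ)) (hwt : ∀ l, l ∉ S → wt l = 0) (g : List ℕ → ℂ) :
    gf S wt (fun z => (T.map (fun t => pf t g z)).sum) =
      (((T.map (mon wt)).sum : Polynomial ℂ) : PowerSeries ℂ) * gf S wt g := by
  induction T with
  | nil => simp [gf_zero]
  | cons t T ih =>
    have h : (fun z => ((t :: T).map (fun t => pf t g z)).sum) =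
        fun z => pf t g z + (T.map (fun t => pf t g z)).sum := by
      funext z; simp
    rw [h, gf_add, ih, gf_pf S wt hwt]
    simp only [List.map_cons, List.sum_cons, Polynomial.coe_add]
    ring

/-- functions which agree on long words -/
theorem gf_eventually (f g : List ℕ → ℂ) (N : ℕ) (h : ∀ z : List ℕ, N ≤ z.length → f z = g z) :
    ∃ P : Polynomial ℂ, gf S wt f = gf S wt g + (P : PowerSeries ℂ) := by
  refine ⟨(PowerSeries.trunc N (gf S wt f - gf S wt g)), ?_⟩
  ext k
  rw [map_add, Polynomial.coeff_coe, PowerSeries.coeff_trunc]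
  by_cases hk : k < N
  · rw [if_pos hk, map_sub]
    ring
  · rw [if_neg hk, add_zero]
    unfold gf
    rw [PowerSeries.coeff_mk, PowerSeries.coeff_mk]
    refine cnt_congr S wt k f g fun z hz _ => h z ?_
    omega

end Pool.Agent.Helper37.RU
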