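import Pool.Agent.Helper37.DE.Final
import Pool.Agent.Helper37.RU.E

/-!
# The rank one form of the generating functions of a finite code
-/

set_option autoImplicit false

namespace Pool.Agent.Helper37.RU

open Pool.Agent.Helper31.BD Pool.Agent.Helper37.DE

open Classical in
/-- indicator -/
noncomputable def ind (P : Prop) : ℂ := if P then 1 else 0

theorem ind_congr {P Q : Prop} (h : P ↔ Q) : ind P = ind Q := by
  unfold ind
  by_cases hP : P
  · rw [if_pos hP, if_pos (h.1 hP)]
  · rw [if_neg hP, if_neg (fun hQ => hP (h.2 hQ))]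

theorem ind_true {P : Prop} (h : P) : ind P = 1 := by
  unfold ind
  rw [if_pos h]

theorem ind_false {P : Prop} (h : ¬ P) : ind P = 0 := by
  unfold ind
  rw [if_neg h]

/-- derivative of a word -/
def tailA (a : ℕ) : List ℕ → List (List ℕ)
  | [] => []
  | l :: t => if l = a then [t] else []

/-- derivative of a word times `C*` -/
noncomputable def dW (C : Finset (List ℕ)) (a : ℕ) : List ℕ → List (List ℕ)
  | [] => C.toList.flatMap (tailA a)
  | l :: t => if l = a then [t] else []

noncomputable def dT (C : Finset (List ℕ)) (a : ℕ) (T : List (List ℕ)) : List (List ℕ) :=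
  T.flatMap (dW C a)

noncomputable def dS (C : Finset (List ℕ)) : List ℕ → List (List ℕ) → List (List ℕ)
  | [], T => T
  | a :: s, T => dS C s (dT C a T)

/-- the sum of the translates -/
noncomputable def SG (T : List (List ℕ)) (g : List ℕ → ℂ) (z : List ℕ) : ℂ :=
  (T.map (fun t => pf t g z)).sum

theorem SG_append (T T' : List (List ℕ)) (g : List ℕ → ℂ) (z : List ℕ) :
    SG (T ++ T') g z = SG T g z + SG T' g z := by
  simp [SG]

theorem SG_cons (t : List ℕ) (T : List (List ℕ)) (g : List ℕ → ℂ) (z : List ℕ) :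
    SG (t :: T) g z = pf t g z + SG T g z := by
  simp [SG]

theorem SG_nil (g : List ℕ → ℂ) (z : List ℕ) : SG [] g z = 0 := by
  simp [SG]

theorem SG_toList (C : Finset (List ℕ)) (g : List ℕ → ℂ) (z : List ℕ) :
    SG C.toList g z = ∑ c ∈ C, pf c g z := by
  unfold SG
  rw [Finset.sum_map_toList]

theorem SG_tailA (a : ℕ) (T : List (List ℕ)) (h : [] ∉ T) (g : List ℕ → ℂ) (z : List ℕ) :
    SG T g (a :: z) = SG (T.flatMap (tailA a)) g z := by
  induction T with
  | nil => rfl
  | cons t T ih =>
    rw [SG_cons, List.flatMap_cons, SG_append, ih (fun h' => h (List.mem_cons_of_mem _ h'))]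
    congr 1
    cases t with
    | nil => exact absurd (by simp) h
    | cons l t =>
      by_cases hl : l = a
      · subst hl
        rw [pf_cons_self]
        simp [tailA, SG]
      · rw [pf_cons_ne _ _ _ _ _ hl]
        simp [tailA, SG, hl]

theorem SG_dT (C : Finset (List ℕ)) (h0 : [] ∉ C) (a : ℕ) (g : List ℕ → ℂ) (N : ℕ)
    (hg : ∀ v : List ℕ, N ≤ v.length → g v = SG C.toList g v) (T : List (List ℕ)) (z : List ℕ)
    (hz : N ≤ z.length) : SG T g (a :: z) = SG (dT C a T) g z := by
  induction T with
  | nil => rfl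
  | cons t T ih =>
    unfold dT at ih ⊢
    rw [SG_cons, List.flatMap_cons, SG_append, ih]
    congr 1
    cases t with
    | nil =>
      rw [pf_nil, hg _ (by simp; omega), SG_tailA a C.toList (by simpa using h0)]
      rfl
    | cons l t =>
      by_cases hl : l = a
      · subst hl
        rw [pf_cons_self]
        simp [dW, SG]
      · rw [pf_cons_ne _ _ _ _ _ hl]
        simp [dW, SG, hl]

theorem SG_dS (C : Finset (List ℕ)) (h0 : [] ∉ C) (g : List ℕ → ℂ) (N : ℕ)
    (hg : ∀ v : List ℕ, N ≤ v.length → g v = SG C.toList g v) (s : List ℕ) :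
    ∀ (T : List (List ℕ)) (z : List ℕ), N ≤ z.length → SG T g (s ++ z) = SG (dS C s T) g z := by
  induction s with
  | nil => intro T z _; rfl
  | cons a s ih =>
    intro T z hz
    rw [List.cons_append, SG_dT C h0 a g N hg T (s ++ z) (by simp; omega)]
    exact ih _ z hz

theorem pf_append (t : List ℕ) (g : List ℕ → ℂ) (z s : List ℕ) (h : t.length ≤ z.length) :
    pf t g (z ++ s) = pf t (fun v => g (v ++ s)) z := by
  unfold pf
  have h1 : t <+: z ++ s ↔ t <+: z := by
    constructor
    · intro h2
      exact List.prefix_of_prefix_length_le h2 (List.prefix_append z s) h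
    · intro h2
      exact h2.trans (List.prefix_append z s)
  by_cases h2 : t <+: z
  · rw [if_pos (h1.2 h2), if_pos h2, List.drop_append_of_le_length h]
  · rw [if_neg (fun h3 => h2 (h1.1 h3)), if_neg h2]

theorem SG_pf_append (T : List (List ℕ)) (N : ℕ) (hT : ∀ t ∈ T, t.length ≤ N) (g : List ℕ → ℂ)
    (z s : List ℕ) (h : N ≤ z.length) : SG T g (z ++ s) = SG T (fun v => g (v ++ s)) z := by
  induction T with
  | nil => rfl
  | cons t T ih =>
    rw [SG_cons, SG_cons, ih (fun x hx => hT x (List.mem_cons_of_mem _ hx)),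
      pf_append t g z s ((hT t (by simp)).trans h)]

/-- the indicator of `C* U` -/
theorem R_rec (C U : Finset (List ℕ)) (hD : Dec C U (Rs C U)) (z : List ℕ) :
    ind (z ∈ Rs C U) = ind (z ∈ U) + SG C.toList (fun v => ind (v ∈ Rs C U)) z := by
  classical
  rw [SG_toList]
  have hpf : ∀ c ∈ C, pf c (fun v => ind (v ∈ Rs C U)) z = ind (∃ r ∈ Rs C U, z = c ++ r) := by
    intro c _
    unfold pf
    by_cases h : c <+: z
    · rw [if_pos h]
      refine ind_congr ?_
      obtain ⟨r, hr⟩ := h
      subst hr
      rw [List.drop_left]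
      constructor
      · intro h1
        exact ⟨r, h1, rfl⟩
      · rintro ⟨r', h1, h2⟩
        rw [List.append_cancel_left h2]
        exact h1
    · rw [if_neg h, ind_false]
      rintro ⟨r, _, h2⟩
      exact h ⟨r, h2.symm⟩
  rw [Finset.sum_congr rfl hpf]
  by_cases hU : z ∈ U
  · rw [ind_true ((hD.mem z).2 (Or.inl hU)), ind_true hU, Finset.sum_eq_zero, add_zero]
    intro c hc
    refine ind_false ?_
    rintro ⟨r, hr, h2⟩
    exact hD.dis c hc r hr (h2 ▸ hU)
  · rw [ind_false hU, zero_add]
    by_cases hR : z ∈ Rs C U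
    · rw [ind_true hR]
      rcases (hD.mem z).1 hR with h | ⟨c, hc, r, hr, h2⟩
      · exact absurd h hU
      · rw [Finset.sum_eq_single c]
        · rw [ind_true ⟨r, hr, h2⟩]
        · intro c' hc' hne
          refine ind_false ?_
          rintro ⟨r', hr', h3⟩
          exact hne (hD.inj c' hc' r' hr' c hc r hr (h3.symm.trans h2))
        · intro h
          exact absurd hc h
    · rw [ind_false hR, eq_comm]
      refine Finset.sum_eq_zero fun c hc => ind_false ?_
      rintro ⟨r, hr, h2⟩
      exact hR ((hD.mem z).2 (Or.inr ⟨c, hc, r, hr, h2⟩))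

/-- **rank one form**: there are a nonzero polynomial `q`, words `w, w'`, and polynomials such that the
generating functions between `w s` and `s' w'` are `t(s) u(s') / q` up to polynomials -/
theorem rank_one (C : Finset (List ℕ)) (hC : UD C) (hne : C.Nonempty) (S : Finset ℕ) (wt : ℕ → ℂ)
    (hwt : ∀ l, l ∉ S → wt l = 0) :
    ∃ (w w' : List ℕ) (q : Polynomial ℂ) (t u : List ℕ → Polynomial ℂ)
      (P : List ℕ → List ℕ → Polynomial ℂ), w ∈ Fac C ∧ w' ∈ Fac C ∧ q ≠ 0 ∧ ∀ s s' : List ℕ,
        (q : PowerSeries ℂ) * gf S wt (fun z => ind (w ++ s ++ z ++ s' ++ w' ∈ Fac C)) =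
          ((t s * u s' + q * P s s' : Polynomial ℂ) : PowerSeries ℂ) := by
  classical
  have h0 : [] ∉ C := by
    intro h
    have h1 := hC [[]] [] (by intro c hc; simp at hc; rw [hc]; exact h)
      (by intro c hc; simp at hc) (by simp)
    simp at h1
  obtain ⟨d, w, w', T, U, hW⟩ := dfc_ex C hC
  obtain ⟨r1, r2, -⟩ := hR1 (Fac C) C d w w' T U hne h0 hW
  have hD : Dec C U (Rs C U) := hDC1 C U hC h0 r1
  let R : List ℕ → ℂ := fun v => ind (v ∈ Rs C U)
  let N := d + C.sup List.length + U.sup List.length + 1
  have hNC : ∀ c ∈ C.toList, c.length ≤ N := by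
    intro c hc
    have := Finset.le_sup (f := List.length) (Finset.mem_toList.1 hc)
    show c.length ≤ d + C.sup List.length + U.sup List.length + 1
    omega
  have hNU : ∀ z : List ℕ, N ≤ z.length → z ∉ U := by
    intro z hz hU
    have := Finset.le_sup (f := List.length) hU
    have h2 : d + C.sup List.length + U.sup List.length + 1 ≤ z.length := hz
    omega
  have hNT : ∀ t ∈ T.toList, t.length ≤ N := by
    intro t ht
    have := hW.lenT t (Finset.mem_toList.1 ht)
    show t.length ≤ d + C.sup List.length + U.sup List.length + 1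
    omega
  have hrec : ∀ (s' v : List ℕ), N ≤ v.length →
      R (v ++ s') = SG C.toList (fun v => R (v ++ s')) v := by
    intro s' v hv
    have h1 : R (v ++ s') = ind (v ++ s' ∈ U) + SG C.toList R (v ++ s') := R_rec C U hD (v ++ s')
    rw [h1, ind_false (hNU _ (by rw [List.length_append]; omega)), zero_add]
    exact SG_pf_append C.toList N hNC R v s' hv
  have hbase : ∀ z : List ℕ, d ≤ z.length → ind (w ++ z ++ w' ∈ Fac C) = SG T.toList R z := by
    intro z hz
    rw [SG_toList]
    have hpf : ∀ c ∈ T, pf c R z = ind (∃ r ∈ Rs C U, z = c ++ r) := by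
      intro c _
      unfold pf
      by_cases h : c <+: z
      · rw [if_pos h]
        refine ind_congr ?_
        obtain ⟨r, hr⟩ := h
        subst hr
        rw [List.drop_left]
        constructor
        · intro h1
          exact ⟨r, h1, rfl⟩
        · rintro ⟨r', h1, h2⟩
          rw [List.append_cancel_left h2]
          exact h1
      · rw [if_neg h, ind_false]
        rintro ⟨r, _, h2⟩
        exact h ⟨r, h2.symm⟩
    rw [Finset.sum_congr rfl hpf]
    by_cases hL : w ++ z ++ w' ∈ Fac C
    · rw [ind_true hL]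
      obtain ⟨t, ht, y, hy, u, hu, he⟩ := (hW.eq z hz).1 hL
      have hr : y ++ u ∈ Rs C U := ⟨y, hy, u, hu, rfl⟩
      rw [Finset.sum_eq_single t]
      · rw [ind_true ⟨y ++ u, hr, by rw [he, List.append_assoc]⟩]
      · intro t' ht' hne'
        refine ind_false ?_
        rintro ⟨r', hr', h3⟩
        refine hne' (r2 t' ht' r' hr' t ht (y ++ u) hr (by rw [← h3]; exact hz) ?_).1
        rw [← h3, he, List.append_assoc]
      · intro h
        exact absurd ht h
    · rw [ind_false hL, eq_comm]
      refine Finset.sum_eq_zero fun t ht => ind_false ?_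
      rintro ⟨r, ⟨y, hy, u, hu, e⟩, h2⟩
      refine hL ((hW.eq z hz).2 ⟨t, ht, y, hy, u, hu, ?_⟩)
      rw [h2, e, List.append_assoc]
  let q : Polynomial ℂ := 1 - (C.toList.map (mon wt)).sum
  -- right contexts
  have hright : ∀ s' : List ℕ, ∃ Q : Polynomial ℂ,
      (q : PowerSeries ℂ) * gf S wt (fun v => R (v ++ s')) = (Q : PowerSeries ℂ) := by
    intro s'
    obtain ⟨Q, hQ⟩ := gf_eventually S wt (fun v => R (v ++ s'))
      (fun v => SG C.toList (fun v => R (v ++ s')) v) N (hrec s')
    refine ⟨Q, ?_⟩
    have h2 : gf S wt (fun v => SG C.toList (fun v => R (v ++ s')) v) =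
        (((C.toList.map (mon wt)).sum : Polynomial ℂ) : PowerSeries ℂ) *
          gf S wt (fun v => R (v ++ s')) := gf_lsum S wt C.toList hwt _
    rw [h2] at hQ
    have h3 : (q : PowerSeries ℂ) = 1 - (((C.toList.map (mon wt)).sum : Polynomial ℂ) : PowerSeries ℂ) := by
      simp only [q, Polynomial.coe_sub, Polynomial.coe_one]
    rw [h3, sub_mul, one_mul]
    linear_combination hQ
  choose u hu using hright
  -- all contexts
  have hall : ∀ s s' : List ℕ, ∃ P : Polynomial ℂ,
      gf S wt (fun z => ind (w ++ s ++ z ++ s' ++ w' ∈ Fac C)) =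
        ((((dS C s T.toList).map (mon wt)).sum : Polynomial ℂ) : PowerSeries ℂ) *
          gf S wt (fun v => R (v ++ s')) + (P : PowerSeries ℂ) := by
    intro s s'
    have h1 := gf_lsum S wt (dS C s T.toList) hwt (fun v => R (v ++ s'))
    rw [← h1]
    refine gf_eventually S wt _ _ N ?_
    intro z hz
    have h2 : w ++ s ++ z ++ s' ++ w' = w ++ ((s ++ z) ++ s') ++ w' := by simp
    have hNd : d ≤ N := by
      show d ≤ d + C.sup List.length + U.sup List.length + 1
      omega
    rw [h2, hbase _ (by simp only [List.length_append]; omega),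
      SG_pf_append T.toList N hNT R (s ++ z) s' (by rw [List.length_append]; omega),
      SG_dS C h0 (fun v => R (v ++ s')) N (hrec s') s T.toList z hz]
    rfl
  choose P hP using hall
  have hw : w ∈ Fac C ∧ w' ∈ Fac C := by
    obtain ⟨c, hc⟩ := hne
    have hc0 : 1 ≤ c.length := by
      rcases Nat.eq_zero_or_pos c.length with h | h
      · exact absurd (List.length_eq_zero_iff.1 h ▸ hc) h0
      · exact h
    obtain ⟨u0, hu0⟩ := hW.neU
    have hz : w ++ ((List.replicate d c).flatten ++ u0) ++ w' ∈ Fac C := by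
      refine (hW.eq _ ?_).2 ⟨[], hW.nilT, (List.replicate d c).flatten,
        ⟨List.replicate d c, ?_, rfl⟩, u0, hu0, by simp⟩
      · rw [List.length_append, List.length_flatten, List.map_replicate, List.sum_replicate,
          smul_eq_mul]
        nlinarith
      · intro e he
        rw [(List.mem_replicate.1 he).2]; exact hc
    obtain ⟨a, b, l, hl, he⟩ := hz
    refine ⟨⟨a, ((List.replicate d c).flatten ++ u0) ++ w' ++ b, l, hl, ?_⟩,
      ⟨a ++ w ++ ((List.replicate d c).flatten ++ u0), b, l, hl, ?_⟩⟩
    · rw [← he]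
      simp
    · rw [← he]
      simp
  refine ⟨w, w', q, fun s => ((dS C s T.toList).map (mon wt)).sum, u, P, hw.1, hw.2, ?_, ?_⟩
  · intro hq
    have h1 : q.coeff 0 = 0 := by rw [hq]; simp
    have h2 : ∀ T : List (List ℕ), [] ∉ T → (((T.map (mon wt)).sum : Polynomial ℂ)).coeff 0 = 0 := by
      intro T hT
      induction T with
      | nil => simp
      | cons t T ih =>
        rw [List.map_cons, List.sum_cons, Polynomial.coeff_add,
          ih (fun h => hT (List.mem_cons_of_mem _ h)), add_zero]
        cases t with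
        | nil => exact absurd (by simp) hT
        | cons l t =>
          simp [mon, Polynomial.coeff_X_pow]
    have h3 : q.coeff 0 = 1 := by
      simp only [q, Polynomial.coeff_sub, Polynomial.coeff_one_zero]
      rw [h2 C.toList (by simpa using h0), sub_zero]
    rw [h3] at h1
    exact one_ne_zero h1
  · intro s s'
    rw [hP s s', mul_add, ← mul_assoc, mul_comm (q : PowerSeries ℂ), mul_assoc, hu s']
    push_cast
    ring

end Pool.Agent.Helper37.RU
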