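import Pool.Agent.Helper37.RU.C
import Pool.Agent.Helper37.RU.F

/-!
# The generating functions of a run length language
-/

set_option autoImplicit false

namespace Pool.Agent.Helper37.RU

open Pool.Agent.Helper31.BD

/-- between a run of `x` with counter `m` and a long run of `y` -/
def W (D : ℕ → Finset ℕ) (y x m : ℕ) (z : List ℕ) : Prop :=
  ∀ a, pr (D a) a (if a = x then m else 0) z ∧
    (a ≠ y → tl a (if a = x then m else 0) z ∉ D a)

variable {D : ℕ → Finset ℕ}

theorem W_nil (h0 : ∀ a, 0 ∉ D a) (y x m : ℕ) : W D y x m [] ↔ (x = y ∨ m ∉ D x) := by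
  constructor
  · intro h
    by_cases hxy : x = y
    · exact Or.inl hxy
    · right
      have h1 := (h x).2 hxy
      rw [if_pos rfl] at h1
      exact h1
  · intro h a
    refine ⟨trivial, fun ha => ?_⟩
    by_cases hax : a = x
    · subst hax
      rw [if_pos rfl]
      rcases h with h | h
      · exact absurd h ha
      · exact h
    · rw [if_neg hax]
      exact h0 a

theorem W_self (h0 : ∀ a, 0 ∉ D a) (y x m : ℕ) (z : List ℕ) :
    W D y x m (x :: z) ↔ W D y x (m + 1) z := by
  unfold W
  refine forall_congr' fun a => ?_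
  by_cases hax : a = x
  · subst hax
    rw [if_pos rfl, if_pos rfl, pr_self, tl_self]
  · rw [if_neg hax, if_neg hax, pr_ne _ _ _ _ _ (Ne.symm hax), tl_ne _ _ _ _ (Ne.symm hax)]
    simp [h0 a]

theorem W_ne (h0 : ∀ a, 0 ∉ D a) (y x m l : ℕ) (z : List ℕ) (hl : l ≠ x) :
    W D y x m (l :: z) ↔ m ∉ D x ∧ W D y l 1 z := by
  unfold W
  constructor
  · intro h
    refine ⟨?_, fun a => ?_⟩
    · have h1 := (h x).1
      rw [if_pos rfl, pr_ne _ _ _ _ _ hl] at h1
      exact h1.1
    · have h1 := h a
      by_cases hal : a = l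
      · subst hal
        rw [if_neg hl, pr_self, tl_self] at h1
        rw [if_pos rfl]
        exact h1
      · rw [if_neg hal]
        rw [pr_ne _ _ _ _ _ (Ne.symm hal), tl_ne _ _ _ _ (Ne.symm hal)] at h1
        exact ⟨h1.1.2, h1.2⟩
  · rintro ⟨hm, h⟩ a
    have h1 := h a
    by_cases hal : a = l
    · subst hal
      rw [if_neg hl, pr_self, tl_self]
      rw [if_pos rfl] at h1
      exact h1
    · rw [if_neg hal] at h1
      rw [pr_ne _ _ _ _ _ (Ne.symm hal), tl_ne _ _ _ _ (Ne.symm hal)]
      refine ⟨⟨?_, h1.1⟩, h1.2⟩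
      by_cases hax : a = x
      · subst hax
        rw [if_pos rfl]
        exact hm
      · rw [if_neg hax]
        exact h0 a

theorem pr_big (E : Finset ℕ) (a K : ℕ) (hK : ∀ j ∈ E, j < K) (z : List ℕ) :
    ∀ m m', K ≤ m → K ≤ m' → pr E a m z → pr E a m' z := by
  induction z with
  | nil => intro m m' _ _ _; trivial
  | cons l z ih =>
    intro m m' hm hm' h
    by_cases hl : l = a
    · subst hl
      rw [pr_self] at h ⊢
      exact ih (m + 1) (m' + 1) (by omega) (by omega) h
    · rw [pr_ne _ _ _ _ _ hl] at h ⊢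
      refine ⟨fun hE => ?_, h.2⟩
      have := hK _ hE
      omega

theorem tl_big (E : Finset ℕ) (a K : ℕ) (hK : ∀ j ∈ E, j < K) (z : List ℕ) :
    ∀ m m', K ≤ m → K ≤ m' → tl a m z ∉ E → tl a m' z ∉ E := by
  induction z with
  | nil =>
    intro m m' _ hm' _ hE
    have := hK _ hE
    simp only [tl] at this
    omega
  | cons l z ih =>
    intro m m' hm hm' h
    by_cases hl : l = a
    · subst hl
      rw [tl_self] at h ⊢
      exact ih (m + 1) (m' + 1) (by omega) (by omega) h
    · rw [tl_ne _ _ _ _ hl] at h ⊢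
      exact h

theorem W_big (y x m m' : ℕ) (z : List ℕ) (K : ℕ) (hK : ∀ j ∈ D x, j < K) (hm : K ≤ m)
    (hm' : K ≤ m') (h : W D y x m z) : W D y x m' z := by
  intro a
  have h1 := h a
  by_cases hax : a = x
  · subst hax
    rw [if_pos rfl] at h1 ⊢
    exact ⟨pr_big _ _ K hK z m m' hm hm' h1.1,
      fun ha => tl_big _ _ K hK z m m' hm hm' (h1.2 ha)⟩
  · rw [if_neg hax] at h1 ⊢
    exact h1

/-- gap polynomial -/
noncomputable def Gap (E : Finset ℕ) (c : ℂ) : Polynomial ℂ :=
  ∑ j ∈ E, (Polynomial.C c * Polynomial.X) ^ j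

/-- the polynomial of a letter -/
noncomputable def ee (E : Finset ℕ) (c : ℂ) : Polynomial ℂ :=
  1 - (1 - Polynomial.C c * Polynomial.X) * Gap E c

theorem ind_and (P Q : Prop) : ind (P ∧ Q) = ind P * ind Q := by
  by_cases hP : P
  · rw [ind_true hP, one_mul]
    exact ind_congr ⟨fun h => h.2, fun h => ⟨hP, h⟩⟩
  · rw [ind_false hP, zero_mul]
    exact ind_false fun h => hP h.1

theorem gf_const_mul (S : Finset ℕ) (wt : ℕ → ℂ) (c : ℂ) (f : List ℕ → ℂ) :
    gf S wt (fun z => c * f z) = PowerSeries.C c * gf S wt f := by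
  ext k
  rw [PowerSeries.coeff_C_mul]
  unfold gf
  rw [PowerSeries.coeff_mk, PowerSeries.coeff_mk]
  induction k generalizing f with
  | zero => rfl
  | succ k ih =>
    unfold cnt
    rw [Finset.mul_sum]
    refine Finset.sum_congr rfl fun l _ => ?_
    rw [ih]
    ring

theorem run_rec (h0 : ∀ a, 0 ∉ D a) (S : Finset ℕ) (wt : ℕ → ℂ) (y x K : ℕ) (hx : x ∈ S)
    (hK : ∀ j ∈ D x, j < K) :
    (ee (D x) (wt x) : PowerSeries ℂ) * gf S wt (fun z => ind (W D y x K z)) =
      PowerSeries.X * ∑ l ∈ S, PowerSeries.C (wt l) * gf S wt (fun z => ind (W D y l 1 z)) + 1 -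
        PowerSeries.C (ind (x = y)) * (Gap (D x) (wt x) : PowerSeries ℂ) := by
  classical
  let F : ℕ → PowerSeries ℂ := fun m => gf S wt (fun z => ind (W D y x m z))
  let Z : PowerSeries ℂ := PowerSeries.C (wt x) * PowerSeries.X
  let N : PowerSeries ℂ := PowerSeries.X * ∑ l ∈ S.erase x,
    PowerSeries.C (wt l) * gf S wt (fun z => ind (W D y l 1 z))
  have hF : ∀ m, F m = PowerSeries.C (ind (x = y ∨ m ∉ D x)) + Z * F (m + 1) +
      PowerSeries.C (ind (m ∉ D x)) * N := by
    intro m
    have h1 : F m = PowerSeries.C (ind (W D y x m [])) + PowerSeries.X *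
        ∑ l ∈ S, PowerSeries.C (wt l) * gf S wt (fun z => ind (W D y x m (l :: z))) :=
      gf_step S wt _
    rw [h1, ind_congr (W_nil h0 y x m), ← Finset.add_sum_erase S _ hx]
    have h2 : gf S wt (fun z => ind (W D y x m (x :: z))) = F (m + 1) := by
      refine gf_congr S wt _ _ fun z _ => ind_congr (W_self h0 y x m z)
    have h3 : ∑ l ∈ S.erase x, PowerSeries.C (wt l) *
        gf S wt (fun z => ind (W D y x m (l :: z))) = PowerSeries.C (ind (m ∉ D x)) *
          ∑ l ∈ S.erase x, PowerSeries.C (wt l) * gf S wt (fun z => ind (W D y l 1 z)) := by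
      rw [Finset.mul_sum]
      refine Finset.sum_congr rfl fun l hl => ?_
      have h4 : gf S wt (fun z => ind (W D y x m (l :: z))) =
          gf S wt (fun z => ind (m ∉ D x) * ind (W D y l 1 z)) := by
        refine gf_congr S wt _ _ fun z _ => ?_
        rw [ind_congr (W_ne h0 y x m l z (Finset.ne_of_mem_erase hl)), ind_and]
      rw [h4, gf_const_mul]
      ring
    rw [h2, h3]
    simp only [Z, N]
    ring
  have hbig : ∀ m, K ≤ m → F m = F K := by
    intro m hm
    refine gf_congr S wt _ _ fun z _ => ind_congr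
      ⟨W_big y x m K z K hK hm le_rfl, W_big y x K m z K hK le_rfl hm⟩
  have hA : F K = 1 + Z * F K + N := by
    have h1 := hF K
    have hKD : K ∉ D x := fun h => absurd (hK K h) (lt_irrefl K)
    rw [ind_true (Or.inr hKD), ind_true hKD, hbig (K + 1) (by omega), map_one, one_mul] at h1
    exact h1
  have hdel : ∀ m, F K - F m = PowerSeries.C (ind (m ∈ D x)) *
      (1 - PowerSeries.C (ind (x = y)) + N) + Z * (F K - F (m + 1)) := by
    intro m
    have h1 := hF m
    by_cases hm : m ∈ D x
    · have e1 : ind (x = y ∨ m ∉ D x) = ind (x = y) :=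
        ind_congr ⟨fun h => h.elim id (fun h => absurd hm h), Or.inl⟩
      rw [e1, ind_false (fun h : m ∉ D x => h hm), map_zero, zero_mul, add_zero] at h1
      rw [ind_true hm, map_one, one_mul]
      linear_combination hA - h1
    · rw [ind_true (Or.inr hm), ind_true hm, map_one, one_mul] at h1
      rw [ind_false hm, map_zero, zero_mul, zero_add]
      linear_combination hA - h1
  have htel : ∀ M, F K - F 0 = (∑ m ∈ Finset.range M, PowerSeries.C (ind (m ∈ D x)) * Z ^ m) *
      (1 - PowerSeries.C (ind (x = y)) + N) + Z ^ M * (F K - F M) := by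
    intro M
    induction M with
    | zero => simp
    | succ M ih =>
      rw [Finset.sum_range_succ, ih, hdel M]
      ring
  have hGap : (Gap (D x) (wt x) : PowerSeries ℂ) =
      ∑ m ∈ Finset.range K, PowerSeries.C (ind (m ∈ D x)) * Z ^ m := by
    have h1 : (Gap (D x) (wt x) : PowerSeries ℂ) = ∑ j ∈ D x, Z ^ j := by
      unfold Gap
      rw [← Polynomial.coeToPowerSeries.ringHom_apply, map_sum]
      refine Finset.sum_congr rfl fun j _ => ?_
      simp only [Polynomial.coeToPowerSeries.ringHom_apply, Polynomial.coe_pow, Polynomial.coe_mul,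
        Polynomial.coe_C, Polynomial.coe_X, Z]
    rw [h1]
    have h2 : ∑ m ∈ Finset.range K, PowerSeries.C (ind (m ∈ D x)) * Z ^ m =
        ∑ m ∈ Finset.range K, if m ∈ D x then Z ^ m else 0 := by
      refine Finset.sum_congr rfl fun m _ => ?_
      by_cases hm : m ∈ D x
      · rw [ind_true hm, if_pos hm, map_one, one_mul]
      · rw [ind_false hm, if_neg hm, map_zero, zero_mul]
    rw [h2, ← Finset.sum_filter]
    congr 1
    ext j
    rw [Finset.mem_filter, Finset.mem_range]
    exact ⟨fun h => ⟨hK j h, h⟩, fun h => h.2⟩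
  have hK0 := htel K
  rw [sub_self, mul_zero, add_zero, ← hGap] at hK0
  have hd0 := hdel 0
  rw [ind_false (h0 x), map_zero, zero_mul, zero_add, Nat.zero_add] at hd0
  have hsum : PowerSeries.X * ∑ l ∈ S, PowerSeries.C (wt l) *
      gf S wt (fun z => ind (W D y l 1 z)) = Z * F 1 + N := by
    rw [← Finset.add_sum_erase S _ hx]
    simp only [Z, N, F]
    ring
  rw [hsum]
  have hee : (ee (D x) (wt x) : PowerSeries ℂ) = 1 - (1 - Z) * (Gap (D x) (wt x) : PowerSeries ℂ) := by
    unfold ee
    simp only [Polynomial.coe_sub, Polynomial.coe_one, Polynomial.coe_mul, Polynomial.coe_C,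
      Polynomial.coe_X, Z]
  rw [hee]
  change (1 - (1 - Z) * (Gap (D x) (wt x) : PowerSeries ℂ)) * F K = _
  generalize (Gap (D x) (wt x) : PowerSeries ℂ) = Γ at *
  linear_combination (1 - Γ) * hA - hd0 + hK0

end Pool.Agent.Helper37.RU
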