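import Pool.Agent.Helper37.RU.G

/-!
# Long runs are synchronizing
-/

set_option autoImplicit false

namespace Pool.Agent.Helper37.RU

open Pool.Agent.Helper31.BD

variable {D : ℕ → Finset ℕ} {n : ℕ}

/-- a bound for the set of a letter -/
def Kf (D : ℕ → Finset ℕ) (a : ℕ) : ℕ := (D a).sup id + 1

theorem lt_Kf (D : ℕ → Finset ℕ) (a : ℕ) : ∀ j ∈ D a, j < Kf D a := by
  intro j hj
  have := Finset.le_sup (f := id) hj
  simp only [id] at this
  unfold Kf
  omega

theorem mem_iff (h0 : ∀ a, 0 ∉ D a) (w : List ℕ) :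
    w ∈ RunLang n D ↔ (∀ a ∈ w, a < n) ∧ ∀ a, pr (D a) a (Kf D a) w := by
  constructor
  · rintro ⟨h1, h2⟩
    refine ⟨h1, fun a => pr_of_inner _ _ _ _ ?_ ?_⟩
    · intro j x v _ _ hD
      have := lt_Kf D a _ hD
      omega
    · intro u v y x j hy hx he
      rcases Nat.eq_zero_or_pos j with h | h
      · rw [h]
        exact h0 a
      · exact h2 a j ⟨h, u, v, y, x, hy, hx, he⟩
  · rintro ⟨h1, h2⟩
    refine ⟨h1, ?_⟩
    rintro a j ⟨_, u, v, y, x, hy, hx, he⟩
    have h3 := h2 a
    rw [he] at h3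
    exact pr_inner _ _ _ u v y x j hy hx h3

theorem rep_mem (h0 : ∀ a, 0 ∉ D a) (x k : ℕ) (hx : x < n) : List.replicate k x ∈ RunLang n D := by
  rw [mem_iff h0]
  refine ⟨fun a ha => by rw [List.eq_of_mem_replicate ha]; exact hx, fun a => ?_⟩
  by_cases hax : a = x
  · subst hax
    have h := pr_rep (D a) a k [] (Kf D a)
    rw [List.append_nil] at h
    exact h.2 trivial
  · rcases Nat.eq_zero_or_pos k with hk | hk
    · rw [hk]
      exact trivial
    · refine (pr_other (D a) (h0 a) a x _ k (Ne.symm hax) hk).1.2 ?_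
      intro hD
      exact absurd (lt_Kf D a _ hD) (lt_irrefl _)

theorem sync (h0 : ∀ a, 0 ∉ D a) (P Q z : List ℕ) (x y : ℕ)
    (hP : P ++ List.replicate (Kf D x) x ∈ RunLang n D)
    (hQ : List.replicate (Kf D y) y ++ Q ∈ RunLang n D) (hz : ∀ a ∈ z, a < n) :
    P ++ List.replicate (Kf D x) x ++ z ++ (List.replicate (Kf D y) y ++ Q) ∈ RunLang n D ↔
      W D y x (Kf D x) z := by
  rw [mem_iff h0] at hP hQ ⊢
  have hlet : ∀ a ∈ P ++ List.replicate (Kf D x) x ++ z ++ (List.replicate (Kf D y) y ++ Q),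
      a < n := by
    intro a ha
    rcases List.mem_append.1 ha with h | h
    · rcases List.mem_append.1 h with h | h
      · exact hP.1 a h
      · exact hz a h
    · exact hQ.1 a h
  have key : ∀ a, pr (D a) a (Kf D a)
      (P ++ List.replicate (Kf D x) x ++ z ++ (List.replicate (Kf D y) y ++ Q)) ↔
      (pr (D a) a (if a = x then Kf D x else 0) z ∧
        (a ≠ y → tl a (if a = x then Kf D x else 0) z ∉ D a)) := by
    intro a
    have hPa := hP.2 a
    have hQa := hQ.2 a
    rw [pr_append, pr_append]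
    have hm1 : (a = x ∧ Kf D x ≤ tl a (Kf D a) (P ++ List.replicate (Kf D x) x)) ∨
        (a ≠ x ∧ tl a (Kf D a) (P ++ List.replicate (Kf D x) x) = 0) := by
      by_cases hax : a = x
      · left
        refine ⟨hax, ?_⟩
        subst hax
        have h := tl_rep a (Kf D a) [] (tl a (Kf D a) P)
        rw [List.append_nil] at h
        rw [tl_append, h]
        simp only [tl]
        omega
      · right
        refine ⟨hax, ?_⟩
        rw [tl_append]
        exact (pr_other (D a) (h0 a) a x _ (Kf D x) (Ne.symm hax) (Nat.succ_pos _)).2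
    have h2 : (pr (D a) a (tl a (Kf D a) (P ++ List.replicate (Kf D x) x)) z ∧
        (a ≠ y → tl a (tl a (Kf D a) (P ++ List.replicate (Kf D x) x)) z ∉ D a)) ↔
        (pr (D a) a (if a = x then Kf D x else 0) z ∧
        (a ≠ y → tl a (if a = x then Kf D x else 0) z ∉ D a)) := by
      rcases hm1 with ⟨hax, hm⟩ | ⟨hax, hm⟩
      · subst hax
        rw [if_pos rfl]
        constructor
        · rintro ⟨h3, h4⟩
          exact ⟨pr_big _ _ _ (lt_Kf D a) z _ _ hm le_rfl h3,
            fun h => tl_big _ _ _ (lt_Kf D a) z _ _ hm le_rfl (h4 h)⟩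
        · rintro ⟨h3, h4⟩
          exact ⟨pr_big _ _ _ (lt_Kf D a) z _ _ le_rfl hm h3,
            fun h => tl_big _ _ _ (lt_Kf D a) z _ _ le_rfl hm (h4 h)⟩
      · rw [if_neg hax, hm]
    rw [← h2]
    have h5 : ∀ m, pr (D a) a m (List.replicate (Kf D y) y ++ Q) ↔ (a ≠ y → m ∉ D a) := by
      intro m
      by_cases hay : a = y
      · subst hay
        refine ⟨fun _ h => absurd rfl h, fun _ => ?_⟩
        rw [pr_rep] at hQa ⊢
        exact pr_big _ _ _ (lt_Kf D a) Q _ _ (by omega) (by omega) hQa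
      · rw [pr_append]
        rw [pr_append] at hQa
        have h6 := pr_other (D a) (h0 a) a y m (Kf D y) (Ne.symm hay) (Nat.succ_pos _)
        have h7 := pr_other (D a) (h0 a) a y (Kf D a) (Kf D y) (Ne.symm hay) (Nat.succ_pos _)
        rw [h6.1, h6.2]
        rw [h7.2] at hQa
        exact ⟨fun h _ => h.1, fun h => ⟨h hay, hQa.2⟩⟩
    rw [h5, tl_append a (P ++ List.replicate (Kf D x) x) z (Kf D a)]
    constructor
    · rintro ⟨⟨_, h3⟩, h4⟩
      exact ⟨h3, h4⟩
    · rintro ⟨h3, h4⟩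
      exact ⟨⟨hPa, h3⟩, h4⟩
  constructor
  · rintro ⟨_, h⟩ a
    exact (key a).1 (h a)
  · intro h
    exact ⟨hlet, fun a => (key a).2 (h a)⟩

/-- transitivity of a factor set -/
theorem fac_trans (C : Finset (List ℕ)) (u v : List ℕ) (hu : u ∈ Fac C) (hv : v ∈ Fac C) :
    ∃ g, u ++ g ++ v ∈ Fac C := by
  obtain ⟨a, b, l, hl, he⟩ := hu
  obtain ⟨a', b', l', hl', he'⟩ := hv
  refine ⟨b ++ a', a, b', l ++ l', ?_, ?_⟩
  · intro c hc
    rcases List.mem_append.1 hc with h | h
    · exact hl c h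
    · exact hl' c h
  · rw [List.flatten_append, ← he, ← he']
    simp

end Pool.Agent.Helper37.RU
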