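import Pool.Agent.Helper37.RU.H
import Pool.Agent.Helper37.RU.D

/-!
# Three restricted letters: no finite code
-/

set_option autoImplicit false

namespace Pool.Agent.Helper37.RU

open Pool.Agent.Helper31.BD

theorem ee_eval (E : Finset ℕ) (c : ℂ) :
    (ee E c).eval 1 = 1 - (1 - c) * (Gap E c).eval 1 := by
  unfold ee
  simp

theorem gap_eval (E : Finset ℕ) (c : ℂ) : (Gap E c).eval 1 = ∑ j ∈ E, c ^ j := by
  unfold Gap
  rw [Polynomial.eval_finset_sum]
  simp

/-- the root -/
theorem exists_root (E : Finset ℕ) (hE : E.Nonempty) : ∃ c : ℂ, (ee E c).eval 1 = 0 := by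
  let M := E.max' hE
  let p : Polynomial ℂ := 1 - (1 - Polynomial.X) * ∑ j ∈ E, Polynomial.X ^ j
  have hM : M ∈ E := E.max'_mem hE
  have hcoef : p.coeff (M + 1) = 1 := by
    have h1 : p = 1 - ∑ j ∈ E, Polynomial.X ^ j + Polynomial.X * ∑ j ∈ E, Polynomial.X ^ j := by
      simp only [p]
      ring
    rw [h1, Polynomial.coeff_add, Polynomial.coeff_sub, Polynomial.coeff_X_mul,
      Polynomial.finset_sum_coeff, Polynomial.finset_sum_coeff]
    have h2 : ∑ j ∈ E, (Polynomial.X ^ j : Polynomial ℂ).coeff (M + 1) = 0 := by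
      refine Finset.sum_eq_zero fun j hj => ?_
      have := E.le_max' j hj
      rw [Polynomial.coeff_X_pow, if_neg]
      intro h
      have h' : E.max' hE + 1 = j := h
      omega
    have h3 : ∑ j ∈ E, (Polynomial.X ^ j : Polynomial ℂ).coeff M = 1 := by
      rw [Finset.sum_eq_single M]
      · simp
      · intro j _ hj
        rw [Polynomial.coeff_X_pow, if_neg (Ne.symm hj)]
      · intro h
        exact absurd hM h
    rw [h2, h3, Polynomial.coeff_one, if_neg (by omega)]
    ring
  have hdeg : p.degree ≠ 0 := by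
    intro h
    have h1 : p.coeff (M + 1) = 0 := by
      refine Polynomial.coeff_eq_zero_of_degree_lt ?_
      rw [h]
      exact_mod_cast Nat.succ_pos M
    rw [hcoef] at h1
    exact one_ne_zero h1
  obtain ⟨c, hc⟩ := IsAlgClosed.exists_root p hdeg
  refine ⟨c, ?_⟩
  rw [ee_eval, gap_eval]
  have h2 : p.eval c = 0 := hc
  simp only [p, Polynomial.eval_sub, Polynomial.eval_one, Polynomial.eval_mul, Polynomial.eval_X,
    Polynomial.eval_finset_sum, Polynomial.eval_pow] at h2
  exact h2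

/-- the algebra -/
theorem algebra (q : Polynomial ℂ) (hq : q ≠ 0) (ea eb ec Ga Gb : Polynomial ℂ)
    (A : Fin 3 → Fin 2 → PowerSeries ℂ) (SS : Fin 2 → PowerSeries ℂ)
    (t : Fin 3 → Polynomial ℂ) (u : Fin 2 → Polynomial ℂ) (P : Fin 3 → Fin 2 → Polynomial ℂ)
    (h : ∀ i j, (q : PowerSeries ℂ) * A i j = ((t i * u j + q * P i j : Polynomial ℂ) : PowerSeries ℂ))
    (ha0 : (ea : PowerSeries ℂ) * A 0 0 = SS 0 + 1 - Ga)
    (ha1 : (ea : PowerSeries ℂ) * A 0 1 = SS 1 + 1)
    (hb0 : (eb : PowerSeries ℂ) * A 1 0 = SS 0 + 1)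
    (hb1 : (eb : PowerSeries ℂ) * A 1 1 = SS 1 + 1 - Gb)
    (hc0 : (ec : PowerSeries ℂ) * A 2 0 = SS 0 + 1)
    (hc1 : (ec : PowerSeries ℂ) * A 2 1 = SS 1 + 1)
    (va : ea.eval 1 = 0) (vb : eb.eval 1 = 0) (vc : ec.eval 1 = 0) :
    Ga.eval 1 * Gb.eval 1 = 0 := by
  -- the four polynomial identities
  have inj : ∀ p p' : Polynomial ℂ, (p : PowerSeries ℂ) = (p' : PowerSeries ℂ) → p = p' :=
    fun p p' hp => Polynomial.coe_injective ℂ hp
  have k1 : q * (-Ga - (ea * P 0 0 - ec * P 2 0)) = (ea * t 0 - ec * t 2) * u 0 := by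
    apply inj
    have h1 := h 0 0
    have h2 := h 2 0
    push_cast at h1 h2 ⊢
    linear_combination (-(q : PowerSeries ℂ)) * ha0 + (q : PowerSeries ℂ) * hc0 +
      (ea : PowerSeries ℂ) * h1 - (ec : PowerSeries ℂ) * h2
  have k2 : q * (0 - (ea * P 0 1 - ec * P 2 1)) = (ea * t 0 - ec * t 2) * u 1 := by
    apply inj
    have h1 := h 0 1
    have h2 := h 2 1
    push_cast at h1 h2 ⊢
    linear_combination (-(q : PowerSeries ℂ)) * ha1 + (q : PowerSeries ℂ) * hc1 +
      (ea : PowerSeries ℂ) * h1 - (ec : PowerSeries ℂ) * h2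
  have k3 : q * (0 - (eb * P 1 0 - ec * P 2 0)) = (eb * t 1 - ec * t 2) * u 0 := by
    apply inj
    have h1 := h 1 0
    have h2 := h 2 0
    push_cast at h1 h2 ⊢
    linear_combination (-(q : PowerSeries ℂ)) * hb0 + (q : PowerSeries ℂ) * hc0 +
      (eb : PowerSeries ℂ) * h1 - (ec : PowerSeries ℂ) * h2
  have k4 : q * (-Gb - (eb * P 1 1 - ec * P 2 1)) = (eb * t 1 - ec * t 2) * u 1 := by
    apply inj
    have h1 := h 1 1
    have h2 := h 2 1
    push_cast at h1 h2 ⊢
    linear_combination (-(q : PowerSeries ℂ)) * hb1 + (q : PowerSeries ℂ) * hc1 +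
      (eb : PowerSeries ℂ) * h1 - (ec : PowerSeries ℂ) * h2
  have k5 : (-Ga - (ea * P 0 0 - ec * P 2 0)) * (-Gb - (eb * P 1 1 - ec * P 2 1)) =
      (0 - (ea * P 0 1 - ec * P 2 1)) * (0 - (eb * P 1 0 - ec * P 2 0)) := by
    have h1 : q * (q * ((-Ga - (ea * P 0 0 - ec * P 2 0)) * (-Gb - (eb * P 1 1 - ec * P 2 1)))) =
        q * (q * ((0 - (ea * P 0 1 - ec * P 2 1)) * (0 - (eb * P 1 0 - ec * P 2 0)))) := by
      generalize (-Ga - (ea * P 0 0 - ec * P 2 0)) = x1 at k1 ⊢
      generalize (-Gb - (eb * P 1 1 - ec * P 2 1)) = x4 at k4 ⊢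
      generalize (0 - (ea * P 0 1 - ec * P 2 1)) = x2 at k2 ⊢
      generalize (0 - (eb * P 1 0 - ec * P 2 0)) = x3 at k3 ⊢
      linear_combination q * x4 * k1 + (ea * t 0 - ec * t 2) * u 0 * k4 - q * x3 * k2 -
        (ea * t 0 - ec * t 2) * u 1 * k3
    exact mul_left_cancel₀ hq (mul_left_cancel₀ hq h1)
  have k6 := congrArg (Polynomial.eval 1) k5
  simp only [Polynomial.eval_mul, Polynomial.eval_sub, Polynomial.eval_neg, va, vb, vc,
    Polynomial.eval_zero, zero_mul, sub_zero] at k6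
  linear_combination k6

theorem no_code (n : ℕ) (D : ℕ → Finset ℕ) (h0 : ∀ a, 0 ∉ D a) (a b c : ℕ) (hab : a ≠ b)
    (hac : a ≠ c) (hbc : b ≠ c) (han : a < n) (hbn : b < n) (hcn : c < n)
    (hDa : (D a).Nonempty) (hDb : (D b).Nonempty) (hDc : (D c).Nonempty)
    (C : Finset (List ℕ)) (hC : UD C) (hL : RunLang n D = Fac C) : False := by
  classical
  obtain ⟨za, hza⟩ := exists_root (D a) hDa
  obtain ⟨zb, hzb⟩ := exists_root (D b) hDb
  obtain ⟨zc, hzc⟩ := exists_root (D c) hDc
  let S : Finset ℕ := {a, b, c}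
  let wt : ℕ → ℂ := fun l => if l = a then za else if l = b then zb else if l = c then zc else 0
  have wa : wt a = za := by simp [wt]
  have wb : wt b = zb := by simp [wt, hab.symm]
  have wc : wt c = zc := by simp [wt, hac.symm, hbc.symm]
  have hwt : ∀ l, l ∉ S → wt l = 0 := by
    intro l hl
    simp only [S, Finset.mem_insert, Finset.mem_singleton, not_or] at hl
    simp [wt, hl.1, hl.2.1, hl.2.2]
  have hSn : ∀ l ∈ S, l < n := by
    intro l hl
    simp only [S, Finset.mem_insert, Finset.mem_singleton] at hl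
    rcases hl with h | h | h
    · rw [h]; exact han
    · rw [h]; exact hbn
    · rw [h]; exact hcn
  have hne : C.Nonempty := by
    have h1 : List.replicate 1 a ∈ Fac C := by
      rw [← hL]
      exact rep_mem h0 a 1 han
    obtain ⟨u, v, l, hl, he⟩ := h1
    cases l with
    | nil =>
      have := congrArg List.length he
      simp at this
    | cons e l => exact ⟨e, hl e (by simp)⟩
  obtain ⟨w, w', q, t, u, P, hw, hw', hq, hqq⟩ := rank_one C hC hne S wt hwt
  -- contexts
  have hleft : ∀ x, x < n → ∃ g, w ++ g ++ List.replicate (Kf D x) x ∈ RunLang n D := by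
    intro x hx
    rw [hL]
    exact fac_trans C _ _ hw (by rw [← hL]; exact rep_mem h0 x _ hx)
  have hright : ∀ y, y < n → ∃ g, List.replicate (Kf D y) y ++ g ++ w' ∈ RunLang n D := by
    intro y hy
    rw [hL]
    exact fac_trans C _ _ (by rw [← hL]; exact rep_mem h0 y _ hy) hw'
  have hctx : ∀ x y, x < n → y < n → ∀ g g', w ++ g ++ List.replicate (Kf D x) x ∈ RunLang n D →
      List.replicate (Kf D y) y ++ g' ++ w' ∈ RunLang n D →
      gf S wt (fun z => ind (w ++ (g ++ List.replicate (Kf D x) x) ++ z ++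
        (List.replicate (Kf D y) y ++ g') ++ w' ∈ Fac C)) =
      gf S wt (fun z => ind (W D y x (Kf D x) z)) := by
    intro x y _ _ g g' hg hg'
    refine gf_congr S wt _ _ fun z hz => ind_congr ?_
    rw [← hL]
    have h1 := sync (n := n) h0 (w ++ g) (g' ++ w') z x y hg (by
      rw [← List.append_assoc]; exact hg') (fun l hl => hSn l (hz l hl))
    rw [← h1]
    simp only [List.append_assoc]
  obtain ⟨ga, hga⟩ := hleft a han
  obtain ⟨gb, hgb⟩ := hleft b hbn
  obtain ⟨gc, hgc⟩ := hleft c hcn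
  obtain ⟨ga', hga'⟩ := hright a han
  obtain ⟨gb', hgb'⟩ := hright b hbn
  have haS : a ∈ S := by simp [S]
  have hbS : b ∈ S := by simp [S]
  have hcS : c ∈ S := by simp [S]
  have R := fun (y x : ℕ) (hx : x ∈ S) => run_rec h0 S wt y x (Kf D x) hx (lt_Kf D x)
  let L : Fin 3 → List ℕ := ![ga ++ List.replicate (Kf D a) a, gb ++ List.replicate (Kf D b) b,
    gc ++ List.replicate (Kf D c) c]
  let L' : Fin 2 → List ℕ := ![List.replicate (Kf D a) a ++ ga', List.replicate (Kf D b) b ++ gb']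
  have hfin := algebra q hq (ee (D a) (wt a)) (ee (D b) (wt b)) (ee (D c) (wt c))
    (Gap (D a) (wt a)) (Gap (D b) (wt b))
    (fun i j => gf S wt (fun z => ind (W D (![a, b] j) (![a, b, c] i) (Kf D (![a, b, c] i)) z)))
    (fun j => PowerSeries.X * ∑ l ∈ S, PowerSeries.C (wt l) *
      gf S wt (fun z => ind (W D (![a, b] j) l 1 z)))
    (fun i => t (L i)) (fun j => u (L' j)) (fun i j => P (L i) (L' j))
    (by
      intro i j
      have h1 := hqq (L i) (L' j)
      rw [← h1]
      congr 1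
      symm
      fin_cases i <;> fin_cases j
      · exact hctx a a han han ga ga' hga hga'
      · exact hctx a b han hbn ga gb' hga hgb'
      · exact hctx b a hbn han gb ga' hgb hga'
      · exact hctx b b hbn hbn gb gb' hgb hgb'
      · exact hctx c a hcn han gc ga' hgc hga'
      · exact hctx c b hcn hbn gc gb' hgc hgb')
    (by
      have h1 := R a a haS
      rw [ind_true rfl, map_one, one_mul] at h1
      exact h1)
    (by
      have h1 := R b a haS
      rw [ind_false hab, map_zero, zero_mul, sub_zero] at h1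
      exact h1)
    (by
      have h1 := R a b hbS
      rw [ind_false hab.symm, map_zero, zero_mul, sub_zero] at h1
      exact h1)
    (by
      have h1 := R b b hbS
      rw [ind_true rfl, map_one, one_mul] at h1
      exact h1)
    (by
      have h1 := R a c hcS
      rw [ind_false hac.symm, map_zero, zero_mul, sub_zero] at h1
      exact h1)
    (by
      have h1 := R b c hcS
      rw [ind_false hbc.symm, map_zero, zero_mul, sub_zero] at h1
      exact h1)
    (by rw [wa]; exact hza) (by rw [wb]; exact hzb) (by rw [wc]; exact hzc)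
  rcases mul_eq_zero.1 hfin with h | h
  · rw [ee_eval, ← wa, h] at hza
    simp at hza
  · rw [ee_eval, ← wb, h] at hzb
    simp at hzb

theorem main (n : ℕ) (D : ℕ → Finset ℕ) :
    (∃ C : Finset (List ℕ), UD C ∧ RunLang n D = Fac C) ↔
      ((Finset.range n).filter (fun a => ∃ j ∈ D a, 0 < j)).card ≤ 2 := by
  classical
  constructor
  · rintro ⟨C, hC, hL⟩
    by_contra hcard
    push Not at hcard
    obtain ⟨a, b, c, ha, hb, hc, hab, hac, hbc⟩ := Finset.two_lt_card_iff.1 hcard
    simp only [Finset.mem_filter, Finset.mem_range] at ha hb hc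
    have hne : ∀ x, (∃ j ∈ D x, 0 < j) → ((D x).erase 0).Nonempty := by
      rintro x ⟨j, hj, hj0⟩
      exact ⟨j, Finset.mem_erase.2 ⟨by omega, hj⟩⟩
    rw [← runLang_erase] at hL
    exact no_code n (fun a => (D a).erase 0) (fun a => Finset.notMem_erase 0 _) a b c hab hac hbc
      ha.1 hb.1 hc.1 (hne a ha.2) (hne b hb.2) (hne c hc.2) C hC hL
  · exact sufficient n D

end Pool.Agent.Helper37.RU
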